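import Pool.Agent.L5helper34.OC.Core

set_option autoImplicit false
set_option linter.all false

/-!
# One conical projection, characteristic `p ≥ 5`: definitions

`q = p m`, `m = p ^ j`, `α = b ^ m`, `t = τ b ^ m`.
-/

namespace Pool.Agent.L5helper34.OP

open Finset Polynomial Pool.Agent.L5helper34.OC

variable {F : Type} [Field F] [DecidableEq F]

/-- the functional `δ_i` -/
noncomputable def dl (K : Finset F) (m : ℕ) (τ : F → F) (i : ℕ) : F[X] →ₗ[F] F :=
  L K (fun b => (b ^ m) ^ i * τ b ^ m)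

/-- the functional `ω` -/
noncomputable def om (K : Finset F) (m p : ℕ) : F[X] →ₗ[F] F := L K (fun b => (b ^ m) ^ (p - 1))

variable [Fintype F]

/-- what the structure theorem uses -/
structure Hyp (p m D : ℕ) (K : Finset F) (τ : F → F) : Prop where
  hp : 5 ≤ p
  hm : p ≤ m
  pow : ∀ b : F, b ^ (p * m) = b
  card : K.card = (p - 2) * m + D + 3
  big : m ≤ D
  q1 : ∀ i k, i + 4 ≤ p → k + 4 ≤ p → ∀ P : F[X], P.natDegree ≤ D →
    dl K m τ i P * dl K m τ (p + k) P = dl K m τ (p + i) P * dl K m τ k P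
  q2 : ∀ r r', r + 3 ≤ p → r' + 3 ≤ p → ∀ P : F[X], P.natDegree ≤ D → om K m p P = 0 →
    ∑ l ∈ range p, dl K m τ (r + l) P * dl K m τ (r' + (p - 1 - l)) P = 0
  lin : ∀ k, k + 3 ≤ 2 * p → ∃ G : F[X], G.natDegree ≤ (p - 1) * m + 1 ∧
    ∀ b ∈ K, G.eval b = (b ^ m) ^ k * τ b ^ m

end Pool.Agent.L5helper34.OP
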