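import Pool.Agent.L5helper34.OP.Base
set_option autoImplicit false
set_option linter.all false

namespace Pool.Agent.L5helper34.OP

open Finset Polynomial Pool.Agent.L5helper34.OC

variable {F : Type} [Field F] [DecidableEq F] [Fintype F]

/-- two polynomials of degree less than `|K|` which agree on `K` are equal -/
theorem chain_eq {K : Finset F} {P Q : F[X]} {d : ℕ} (hP : P.natDegree ≤ d) (hQ : Q.natDegree ≤ d)
    (hd : d < K.card) (h : ∀ b ∈ K, P.eval b = Q.eval b) : P = Q := by
  have h0 : P - Q = 0 := by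
    apply Polynomial.eq_zero_of_natDegree_lt_card_of_eval_eq_zero' (P - Q) K
    · intro b hb
      rw [eval_sub, h b hb, sub_self]
    · exact lt_of_le_of_lt (le_trans (natDegree_sub_le P Q) (max_le hP hQ)) hd
  exact sub_eq_zero.mp h0

theorem chain {p m n : ℕ} (hp : 2 ≤ p) (hm : 2 ≤ m) (hn : n ≤ 1) {K : Finset F}
    (hK : (p - 1) * m + 3 ≤ K.card) (hpow : ∀ b : F, b ^ (p * m) = b) {t : F → F}
    (g : F[X]) (hg : g.natDegree ≤ n) (T A Lk : ℕ → F[X])
    (hT : ∀ k < p, ∀ b ∈ K, (T k).eval b = (b ^ m) ^ k * t b)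
    (hT0 : (T 0).natDegree ≤ (p - 1) * m) (hTd : ∀ k < p, (T k).natDegree ≤ (p - 1) * m + 1)
    (hA : ∀ k < p, (A k).natDegree ≤ n) (hL : ∀ k < p, (Lk k).natDegree ≤ (p - 2) * m + 1 + n)
    (hgT : ∀ k < p, g * T k = A k * X ^ ((p - 1) * m) + Lk k) :
    g * T 0 = ∑ k ∈ range p, A k * X ^ ((p - 1 - k) * m) := by
  obtain ⟨r, rfl⟩ : ∃ r, p = r + 2 := ⟨p - 2, by omega⟩
  have e1 : r + 2 - 1 = r + 1 := by omega
  have e2 : r + 2 - 2 = r := by omega
  rw [e1] at hK hT0
  simp only [e1] at hTd hgT ⊢
  simp only [e2] at hL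
  have hCd : ∀ k < r + 2, (A k * X + X ^ m * Lk k).natDegree ≤ (r + 1) * m + 2 := by
    intro k hk
    refine le_trans (natDegree_add_le _ _) (max_le ?_ ?_)
    · refine le_trans natDegree_mul_le ?_
      have := hA k hk
      have h2 : (X : F[X]).natDegree ≤ 1 := natDegree_X_le
      omega
    · refine le_trans natDegree_mul_le ?_
      have := hL k hk
      have h2 : (X ^ m : F[X]).natDegree ≤ m := natDegree_X_pow_le m
      have h3 : (r + 1) * m = r * m + m := by ring
      omega
  have hCe : ∀ k < r + 2, ∀ b ∈ K, (A k * X + X ^ m * Lk k).eval b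
      = (b ^ m) ^ (k + 1) * t b * g.eval b := by
    intro k hk b hb
    have h1 := congrArg (fun Q => Polynomial.eval b Q) (hgT k hk)
    simp only [eval_mul, eval_add, eval_pow, eval_X] at h1
    rw [hT k hk b hb] at h1
    simp only [eval_mul, eval_add, eval_pow, eval_X]
    have h2 : b ^ m * b ^ ((r + 1) * m) = b := by
      rw [← pow_add]
      have : m + (r + 1) * m = (r + 2) * m := by ring
      rw [this]; exact hpow b
    calc eval b (A k) * b + b ^ m * eval b (Lk k)
        = eval b (A k) * (b ^ m * b ^ ((r + 1) * m)) + b ^ m * eval b (Lk k) := by rw [h2]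
      _ = b ^ m * (eval b (A k) * b ^ ((r + 1) * m) + eval b (Lk k)) := by ring
      _ = b ^ m * (eval b g * ((b ^ m) ^ k * t b)) := by rw [h1]
      _ = _ := by ring
  -- the steps
  have hstep : ∀ k, k + 1 < r + 2 → g * T (k + 1) = X ^ m * (g * T k)
      - A k * (X ^ ((r + 2) * m) - X) := by
    intro k hk
    have h1 : A k * X + X ^ m * Lk k = g * T (k + 1) := by
      apply chain_eq (K := K) (hCd k (by omega)) (d := (r + 1) * m + 2) _ (by omega)
      · intro b hb
        rw [hCe k (by omega) b hb, eval_mul, hT (k + 1) hk b hb]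
        ring
      · refine le_trans natDegree_mul_le ?_
        have := hTd (k + 1) hk
        omega
    rw [← h1, hgT k (by omega)]
    have : (X : F[X]) ^ ((r + 2) * m) = X ^ m * X ^ ((r + 1) * m) := by
      rw [← pow_add]; congr 1; ring
    rw [this]
    ring
  have hlast : X * (g * T 0) = X ^ m * (g * T (r + 1))
      - A (r + 1) * (X ^ ((r + 2) * m) - X) := by
    have h1 : A (r + 1) * X + X ^ m * Lk (r + 1) = X * (g * T 0) := by
      apply chain_eq (K := K) (hCd (r + 1) (by omega)) (d := (r + 1) * m + 2) _ (by omega)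
      · intro b hb
        rw [hCe (r + 1) (by omega) b hb, eval_mul, eval_mul, hT 0 (by omega) b hb, eval_X]
        have h2 : (b ^ m) ^ (r + 1 + 1) = b := by
          rw [← pow_mul]
          have : m * (r + 1 + 1) = (r + 2) * m := by ring
          rw [this]; exact hpow b
        rw [h2]
        ring
      · refine le_trans natDegree_mul_le ?_
        have h2 : (X : F[X]).natDegree ≤ 1 := natDegree_X_le
        have h3 : (g * T 0).natDegree ≤ n + (r + 1) * m :=
          le_trans natDegree_mul_le (by omega)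
        omega
    rw [← h1, hgT (r + 1) (by omega)]
    have : (X : F[X]) ^ ((r + 2) * m) = X ^ m * X ^ ((r + 1) * m) := by
      rw [← pow_add]; congr 1; ring
    rw [this]
    ring
  have hroll : ∀ k, k < r + 2 → g * T k = X ^ (k * m) * (g * T 0)
      - (X ^ ((r + 2) * m) - X) * ∑ i ∈ range k, A i * X ^ ((k - 1 - i) * m) := by
    intro k
    induction k with
    | zero => intro _; simp
    | succ k ih =>
      intro hk
      rw [hstep k hk, ih (by omega), sum_range_succ]
      have h1 : ∀ i ∈ range k, A i * (X : F[X]) ^ ((k + 1 - 1 - i) * m)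
          = X ^ m * (A i * X ^ ((k - 1 - i) * m)) := by
        intro i hi
        rw [mem_range] at hi
        have : (k + 1 - 1 - i) * m = m + (k - 1 - i) * m := by
          have : k + 1 - 1 - i = (k - 1 - i) + 1 := by omega
          rw [this]; ring
        rw [this, pow_add]
        ring
      rw [sum_congr rfl h1, ← mul_sum]
      have h2 : (k + 1 - 1 - k) * m = 0 := by
        have : k + 1 - 1 - k = 0 := by omega
        rw [this, zero_mul]
      rw [h2, pow_zero, mul_one]
      have h3 : (X : F[X]) ^ ((k + 1) * m) = X ^ m * X ^ (k * m) := by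
        rw [← pow_add]; congr 1; ring
      rw [h3]
      ring
  have hfin : (X ^ ((r + 2) * m) - X) * (g * T 0)
      = (X ^ ((r + 2) * m) - X) * ∑ k ∈ range (r + 2), A k * X ^ ((r + 1 - k) * m) := by
    have h0 := hroll (r + 1) (by omega)
    rw [sum_range_succ]
    have h1 : ∀ i ∈ range (r + 1), A i * (X : F[X]) ^ ((r + 1 - i) * m)
        = X ^ m * (A i * X ^ ((r + 1 - 1 - i) * m)) := by
      intro i hi
      rw [mem_range] at hi
      have : (r + 1 - i) * m = m + (r + 1 - 1 - i) * m := by
        have : r + 1 - i = (r + 1 - 1 - i) + 1 := by omega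
        rw [this]; ring
      rw [this, pow_add]
      ring
    rw [sum_congr rfl h1, ← mul_sum]
    have h2 : (r + 1 - (r + 1)) * m = 0 := by simp
    rw [h2, pow_zero, mul_one]
    have h3 : (X : F[X]) ^ ((r + 2) * m) = X ^ m * X ^ ((r + 1) * m) := by
      rw [← pow_add]; congr 1; ring
    set S := ∑ i ∈ range (r + 1), A i * (X : F[X]) ^ ((r + 1 - 1 - i) * m) with hS
    rw [h0] at hlast
    linear_combination (-1 : F[X]) * hlast + (g * T 0) * h3
  have hne : (X ^ ((r + 2) * m) - X : F[X]) ≠ 0 := by
    have h4 : 1 < (r + 2) * m := by nlinarith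
    intro h0
    have h5 : (X ^ ((r + 2) * m) - X : F[X]).coeff 1 = 0 := by rw [h0]; simp
    rw [coeff_sub, coeff_X_pow, coeff_X_one, if_neg (by omega)] at h5
    simp at h5
  exact mul_left_cancel₀ hne hfin

end Pool.Agent.L5helper34.OP
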