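import Pool.Agent.L5helper34.OP.LinK
set_option autoImplicit false
set_option linter.all false

namespace Pool.Agent.L5helper34.OP

open Finset Polynomial Pool.Agent.L5helper34.OC

variable {F : Type} [Field F] [DecidableEq F]

lemma final_pole_dd3 {a b c d : F} (hab : a ≠ b) (hac : a ≠ c) (had : a ≠ d) (hbc : b ≠ c)
    (hbd : b ≠ d) (hcd : c ≠ d) (τ : F → F) (c0 c1 c2 : F) :
    dd3 (fun s => τ s - (c0 + c1 * s + c2 * s ^ 2)) a b c d = dd3 τ a b c d := by
  have h1 := sub_ne_zero.2 hab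
  have h2 := sub_ne_zero.2 hac
  have h3 := sub_ne_zero.2 had
  have h4 := sub_ne_zero.2 hbc
  have h5 := sub_ne_zero.2 hbd
  have h6 := sub_ne_zero.2 hcd
  have h1' := sub_ne_zero.2 hab.symm
  have h2' := sub_ne_zero.2 hac.symm
  have h3' := sub_ne_zero.2 had.symm
  have h4' := sub_ne_zero.2 hbc.symm
  have h5' := sub_ne_zero.2 hbd.symm
  have h6' := sub_ne_zero.2 hcd.symm
  have key : (c0 + c1 * a + c2 * a ^ 2) / ((a - b) * (a - c) * (a - d)) +
      (c0 + c1 * b + c2 * b ^ 2) / ((b - a) * (b - c) * (b - d)) +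
      (c0 + c1 * c + c2 * c ^ 2) / ((c - a) * (c - b) * (c - d)) +
      (c0 + c1 * d + c2 * d ^ 2) / ((d - a) * (d - b) * (d - c)) = 0 := by
    field_simp
    ring
  unfold dd3
  simp only [sub_div]
  linear_combination -key

lemma final_pole_nz {τ : F → F} {K : Finset F} (h : NZ τ K) (c0 c1 c2 : F) :
    NZ (fun s => τ s - (c0 + c1 * s + c2 * s ^ 2)) K := by
  intro a ha b hb c hc d hd hab hac had hbc hbd hcd
  rw [final_pole_dd3 hab hac had hbc hbd hcd]
  exact h a ha b hb c hc d hd hab hac had hbc hbd hcd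

lemma final_pole_hat {p m : ℕ} (hp : 5 ≤ p) (hpow : ∀ x : F, (x ^ m) ^ p = x) (U : F[X])
    (hU : U.natDegree + 4 ≤ 2 * p) :
    ∃ V : F[X], V.natDegree ≤ (p - 1) * m + 1 ∧ ∀ x : F, V.eval x = U.eval (x ^ m) := by
  refine ⟨∑ i ∈ range (U.natDegree + 1),
    C (U.coeff i) * X ^ (if i < p then m * i else 1 + m * (i - p)), ?_, fun x => ?_⟩
  · refine natDegree_sum_le_of_forall_le _ _ fun i hi => ?_
    refine (natDegree_C_mul_le _ _).trans ?_
    rw [natDegree_X_pow]
    have hi' := mem_range.1 hi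
    have e : (p - 1) * m = m * (p - 1) := mul_comm _ _
    split_ifs with h
    · have : m * i ≤ m * (p - 1) := Nat.mul_le_mul_left _ (by omega)
      omega
    · have : m * (i - p) ≤ m * (p - 1) := Nat.mul_le_mul_left _ (by omega)
      omega
  · rw [eval_finset_sum, eval_eq_sum_range]
    refine sum_congr rfl fun i hi => ?_
    rw [eval_mul, eval_C, eval_pow, eval_X]
    congr 1
    split_ifs with h
    · rw [pow_mul]
    · have h1 : i = p + (i - p) := by omega
      conv_rhs => rw [h1, pow_add, hpow]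
      rw [pow_add, pow_one, pow_mul]

variable [Fintype F]

lemma final_pole_lin {p j l k' : ℕ} [Fact p.Prime] [CharP F p] (hp : 5 ≤ p)
    (hq : Fintype.card F = p ^ (j + 1)) (hj : 1 ≤ j) (hl : l + 1 ≤ p)
    (hk : k' + 2 * l + 1 ≤ 2 * p) {K : Finset F} (hK : (p - 1) * p ^ j + 3 ≤ K.card) {τ : F → F}
    (h : NZ τ K) (W : F[X]) (hW : W.natDegree ≤ k') :
    ∃ G : F[X], G.natDegree ≤ (p - 1) * p ^ j + 1 ∧
      ∀ b ∈ K, G.eval b = W.eval (b ^ p ^ j) * (τ b ^ p ^ j) ^ l := by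
  have h1 : ∀ k, ∃ G : F[X], k ≤ k' → (G.natDegree ≤ (p - 1) * p ^ j + 1 ∧
      ∀ b ∈ K, G.eval b = (b ^ p ^ j) ^ k * (τ b ^ p ^ j) ^ l) := by
    intro k
    by_cases hk1 : k ≤ k'
    · obtain ⟨G, hG⟩ := linK hp hq hj hl (k := k) (by omega) hK h
      exact ⟨G, fun _ => hG⟩
    · exact ⟨0, fun h => absurd h hk1⟩
  choose G hG using h1
  refine ⟨∑ i ∈ range (k' + 1), C (W.coeff i) * G i, ?_, fun b hb => ?_⟩
  · refine natDegree_sum_le_of_forall_le _ _ fun i hi => ?_
    exact (natDegree_C_mul_le _ _).trans (hG i (by have := mem_range.1 hi; omega)).1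
  · rw [eval_finset_sum, eval_eq_sum_range' (n := k' + 1) (by omega), sum_mul]
    refine sum_congr rfl fun i hi => ?_
    rw [eval_mul, eval_C, (hG i (by have := mem_range.1 hi; omega)).2 b hb]
    ring

/-- the pole case; here `μ ∉ K` -/
theorem final_pole {p j : ℕ} [Fact p.Prime] [CharP F p] (hp : 5 ≤ p)
    (hq : Fintype.card F = p ^ (j + 1)) (hj : 1 ≤ j) {K : Finset F}
    (hK : (p - 1) * p ^ j + 3 ≤ K.card) {τ : F → F} (h : NZ τ K) (μ : F) (hμ : μ ∉ K) (A Ω : F[X])
    (hA : A.natDegree + 1 ≤ p) (hΩ : Ω.natDegree ≤ 2) (hA0 : A.eval (μ ^ p ^ j) = 0)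
    (ht : ∀ b ∈ K, τ b ^ p ^ j = A.eval (b ^ p ^ j) / (b - μ) + Ω.eval (b ^ p ^ j)) :
    ∃ l c0 c1 c2 : F, l ≠ 0 ∧ ∀ s ∈ K, τ s = l / (s - μ) + (c0 + c1 * s + c2 * s ^ 2) := by
  haveI : ExpChar F p := ExpChar.prime (Fact.out : p.Prime)
  have hpow : ∀ x : F, (x ^ p ^ j) ^ p = x := by
    intro x
    rw [← pow_mul, ← pow_succ, ← hq, FiniteField.pow_card]
  have hpow' : ∀ x : F, (x ^ p) ^ p ^ j = x := by
    intro x
    rw [← pow_mul, mul_comm, pow_mul, hpow]
  have hK4 : 4 ≤ K.card := by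
    have h1 : 1 ≤ (p - 1) * p ^ j :=
      Nat.mul_pos (by omega) (Nat.pow_pos (by omega))
    omega
  set m := p ^ j with hm
  set ν := μ ^ m with hν
  -- the coefficients of `Ω`
  obtain ⟨w0, w1, w2, hw⟩ : ∃ w0 w1 w2 : F, ∀ x, Ω.eval x = w0 + w1 * x + w2 * x ^ 2 := by
    refine ⟨Ω.coeff 0, Ω.coeff 1, Ω.coeff 2, fun x => ?_⟩
    rw [eval_eq_sum_range' (n := 3) (by omega)]
    simp [sum_range_succ]
  set τ' : F → F := fun s => τ s - (w0 ^ p + w1 ^ p * s + w2 ^ p * s ^ 2) with hτ'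
  have h' : NZ τ' K := final_pole_nz h _ _ _
  have hsubm : ∀ x y : F, (x - y) ^ m = x ^ m - y ^ m := fun x y => sub_pow_char_pow x y j
  have haddm : ∀ x y : F, (x + y) ^ m = x ^ m + y ^ m := fun x y => add_pow_char_pow x y p j
  have ht' : ∀ b ∈ K, τ' b ^ m = A.eval (b ^ m) / (b - μ) := by
    intro b hb
    have e := ht b hb
    rw [hw] at e
    rw [hτ']
    simp only
    rw [hsubm, haddm, haddm, mul_pow, mul_pow, hpow', hpow', hpow', ← pow_mul b 2 m, mul_comm 2 m,
      pow_mul b m 2, e]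
    ring
  have hbμ : ∀ b ∈ K, b - μ ≠ 0 := fun b hb => sub_ne_zero.2 fun e => hμ (e ▸ hb)
  have hdp : ∀ b : F, (b ^ m - ν) ^ p = b - μ := by
    intro b
    rw [sub_pow_char, hpow, hν, hpow]
  have hd : ∀ b ∈ K, b ^ m - ν ≠ 0 := by
    intro b hb e
    have e1 := hdp b
    rw [e, zero_pow (by omega)] at e1
    exact hbμ b hb e1.symm
  have hA1 : A ≠ 0 := by
    intro e
    refine not_quad h subset_rfl hK4 (c0 := w0 ^ p) (c1 := w1 ^ p) (c2 := w2 ^ p) fun s hs => ?_
    have e1 := ht' s hs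
    rw [e, eval_zero, zero_div] at e1
    have e2 : τ' s = 0 := by
      rw [← hpow (τ' s), e1, zero_pow (by omega)]
    rw [hτ'] at e2
    exact sub_eq_zero.1 e2
  obtain ⟨Q, hQ, hQn⟩ := exists_eq_pow_rootMultiplicity_mul_and_not_dvd A hA1 ν
  set g := A.rootMultiplicity ν with hg
  have hg1 : 1 ≤ g := (rootMultiplicity_pos hA1).2 hA0
  have hQν : Q.eval ν ≠ 0 := fun e => hQn (dvd_iff_isRoot.2 e)
  have hQ0 : Q ≠ 0 := by
    rintro rfl
    simp at hQν
  have hdeg : g + Q.natDegree + 1 ≤ p := by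
    have e : A.natDegree = g + Q.natDegree := by
      conv_lhs => rw [hQ]
      rw [natDegree_mul (pow_ne_zero _ (X_sub_C_ne_zero ν)) hQ0, natDegree_pow, natDegree_X_sub_C,
        mul_one]
    omega
  have hAe : ∀ x, A.eval x = (x - ν) ^ g * Q.eval x := by
    intro x
    conv_lhs => rw [hQ]
    rw [eval_mul, eval_pow, eval_sub, eval_X, eval_C]
  by_cases he1 : g + 1 = p
  · -- a simple pole
    have hQc : Q.natDegree = 0 := by omega
    obtain ⟨c, hc⟩ := natDegree_eq_zero.1 hQc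
    have hcν : c ≠ 0 := by
      rw [← hc, eval_C] at hQν
      exact hQν
    refine ⟨c ^ p, w0 ^ p, w1 ^ p, w2 ^ p, pow_ne_zero _ hcν, fun s hs => ?_⟩
    have e1 := ht' s hs
    rw [hAe, ← hc, eval_C] at e1
    have e2 : τ' s ^ m = c / (s ^ m - ν) := by
      rw [e1, ← hdp s, ← he1, pow_succ]
      have := hd s hs
      field_simp
    have e3 : τ' s = c ^ p / (s - μ) := by
      rw [← hpow (τ' s), e2, div_pow, hdp]
    rw [hτ'] at e3
    simp only at e3
    linear_combination e3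
  · exfalso
    obtain ⟨e, he⟩ : ∃ e, p = g + e := ⟨p - g, by omega⟩
    have he2 : 2 ≤ e := by omega
    set l' := (p - 1) / e with hl'
    have a1 : l' * e ≤ p - 1 := Nat.div_mul_le_self _ _
    have a2 : p - 1 < (l' + 1) * e := by
      have := Nat.lt_div_mul_add (a := p - 1) (b := e) (by omega)
      rw [add_mul, one_mul]
      exact this
    have a3 : 1 ≤ l' := by
      rw [hl', Nat.le_div_iff_mul_le (by omega)]
      omega
    have a4 : l' * 2 ≤ l' * e := Nat.mul_le_mul_left _ he2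
    have a5 : (l' + 1) * e = l' * e + e := by ring
    obtain ⟨k', hk'⟩ : ∃ k', (l' + 1) * e = p + k' := ⟨(l' + 1) * e - p, by omega⟩
    obtain ⟨G, hG, hGe⟩ := final_pole_lin (l := l' + 1) (k' := k') hp hq hj (by omega) (by omega) hK h'
      ((X - C ν) ^ k') (by rw [natDegree_pow, natDegree_X_sub_C, mul_one])
    rw [← hm] at hG hGe
    have hUd : (Q ^ (l' + 1)).natDegree + 4 ≤ 2 * p := by
      rw [natDegree_pow]
      have b1 : (l' + 1) * Q.natDegree ≤ (l' + 1) * (e - 1) := Nat.mul_le_mul_left _ (by omega)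
      have b2 : (l' + 1) * (e - 1) + (l' + 1) = (l' + 1) * e := by
        obtain ⟨e', rfl⟩ : ∃ e', e = e' + 1 := ⟨e - 1, by omega⟩
        rw [Nat.add_sub_cancel]
        ring
      omega
    obtain ⟨V, hV, hVe⟩ := final_pole_hat hp hpow (Q ^ (l' + 1)) hUd
    have hEq : (X - C μ) * G = V := by
      refine poly_eq (K := K) ?_ (by omega) fun b hb => ?_
      · have := natDegree_mul_le (p := (X - C μ : F[X])) (q := G)
        rw [natDegree_X_sub_C] at this
        omega
      · rw [eval_mul, eval_sub, eval_X, eval_C, hGe b hb, hVe, eval_pow, eval_pow, eval_sub, eval_X,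
          eval_C, ht' b hb, hAe]
        have hd0 := hd b hb
        have hd1 := hdp b
        rw [← hd1]
        set d := b ^ m - ν with hdd
        have c1 : (d ^ g * Q.eval (b ^ m) / d ^ p) ^ (l' + 1) =
            d ^ (g * (l' + 1)) * Q.eval (b ^ m) ^ (l' + 1) / d ^ (p * (l' + 1)) := by
          rw [div_pow, mul_pow, ← pow_mul, ← pow_mul]
        rw [c1]
        have c2 : p * (l' + 1) = p + k' + g * (l' + 1) := by
          rw [← hk']
          conv_lhs => rw [he]
          ring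
        rw [c2, pow_add, pow_add]
        field_simp
        ring
    have hfin := congrArg (eval μ) hEq
    rw [eval_mul, eval_sub, eval_X, eval_C, sub_self, zero_mul, hVe, eval_pow] at hfin
    exact pow_ne_zero _ hQν hfin.symm

end Pool.Agent.L5helper34.OP
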