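import Pool.Agent.L5helper34.OP.LinK
set_option autoImplicit false
set_option linter.all false

namespace Pool.Agent.L5helper34.OP

open Finset Polynomial Pool.Agent.L5helper34.OC

variable {F : Type} [Field F] [DecidableEq F] [Fintype F]

omit [DecidableEq F] in
lemma final_poly_pow {p j : ℕ} (hq : Fintype.card F = p ^ (j + 1)) (b : F) :
    (b ^ p ^ j) ^ p = b := by
  rw [← pow_mul, ← pow_succ, ← hq, FiniteField.pow_card]

omit [Fintype F] [DecidableEq F] in
/-- the reduced polynomial -/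
lemma final_poly_hat {p m M : ℕ} (hp : 0 < p) (hM : 0 < M) (hm : M ≤ m) (W : F[X]) (hW : W.natDegree < M * p)
    (hpow : ∀ b : F, (b ^ m) ^ p = b) :
    ∃ What : F[X], What.natDegree ≤ (p - 1) * m + (M - 1) ∧ (∀ b : F, What.eval b = W.eval (b ^ m)) ∧
      What.coeff ((p - 1) * m + (M - 1)) = W.coeff (M * p - 1) := by
  refine ⟨∑ E ∈ range (M * p), C (W.coeff E) * X ^ (E / p + m * (E % p)), ?_, ?_, ?_⟩
  · refine natDegree_sum_le_of_forall_le _ _ fun E hE => ?_
    rw [mem_range] at hE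
    refine (natDegree_C_mul_X_pow_le _ _).trans ?_
    have h1 : E / p ≤ M - 1 := by
      have : E / p < M := Nat.div_lt_of_lt_mul (by rw [mul_comm]; exact hE)
      omega
    have h2 : E % p ≤ p - 1 := by
      have := Nat.mod_lt E hp
      omega
    have h3 : m * (E % p) ≤ (p - 1) * m := by
      rw [mul_comm]; exact Nat.mul_le_mul_right _ h2
    omega
  · intro b
    rw [eval_finset_sum, eval_eq_sum_range' hW]
    apply sum_congr rfl
    intro E _
    rw [eval_mul, eval_C, eval_pow, eval_X]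
    congr 1
    conv_rhs => rw [← Nat.div_add_mod E p, pow_add, pow_mul, hpow]
    rw [pow_add, pow_mul]
  · rw [finset_sum_coeff]
    rw [sum_eq_single (M * p - 1)]
    · have h0 : M * p - 1 = p * (M - 1) + (p - 1) := by
        obtain ⟨M', rfl⟩ : ∃ M', M = M' + 1 := ⟨M - 1, by omega⟩
        obtain ⟨p', rfl⟩ : ∃ p', p = p' + 1 := ⟨p - 1, by omega⟩
        simp only [Nat.add_sub_cancel]
        have : (M' + 1) * (p' + 1) = (p' + 1) * M' + p' + 1 := by ring
        omega
      have h1 : (M * p - 1) / p = M - 1 := by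
        rw [h0, Nat.mul_add_div hp, Nat.div_eq_of_lt (by omega), add_zero]
      have h2 : (M * p - 1) % p = p - 1 := by
        rw [h0, Nat.mul_add_mod, Nat.mod_eq_of_lt (by omega)]
      rw [h1, h2, coeff_C_mul, coeff_X_pow, if_pos (by ring), mul_one]
    · intro E hE hne
      rw [mem_range] at hE
      rw [coeff_C_mul, coeff_X_pow, if_neg, mul_zero]
      intro he
      apply hne
      have h1 : E / p ≤ M - 1 := by
        have : E / p < M := Nat.div_lt_of_lt_mul (by rw [mul_comm]; exact hE)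
        omega
      have h2 : E % p ≤ p - 1 := by
        have := Nat.mod_lt E hp
        omega
      have h8 : (p - 1) * m = m * (p - 1) := by ring
      have h3 : E % p = p - 1 := by
        by_contra h4
        have h5 : E % p + 1 ≤ p - 1 := by omega
        have h6 : m * (E % p + 1) ≤ m * (p - 1) := Nat.mul_le_mul_left _ h5
        have h7 : m * (E % p + 1) = m * (E % p) + m := by ring
        omega
      have h4 : E / p = M - 1 := by
        rw [h3] at he
        omega
      have h5 := Nat.div_add_mod E p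
      rw [h3, h4] at h5
      have h6 : p * (M - 1) + p = M * p := by
        obtain ⟨M', rfl⟩ : ∃ M', M = M' + 1 := ⟨M - 1, by omega⟩
        simp only [Nat.add_sub_cancel]
        ring
      omega
    · intro h
      exfalso
      apply h
      rw [mem_range]
      have : 0 < M * p := Nat.mul_pos hM hp
      omega

/-- the polynomial case -/
theorem final_poly {p j : ℕ} [Fact p.Prime] [CharP F p] (hp : 5 ≤ p)
    (hq : Fintype.card F = p ^ (j + 1)) (hj : 1 ≤ j) {K : Finset F}
    (hK : (p - 1) * p ^ j + 3 ≤ K.card) {τ : F → F} (h : NZ τ K) (Ω : F[X])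
    (hΩ : Ω.natDegree + 1 ≤ p) (ht : ∀ b ∈ K, τ b ^ p ^ j = Ω.eval (b ^ p ^ j)) :
    ∃ l c0 c1 c2 : F, l ≠ 0 ∧ ∀ s ∈ K, τ s = l * s ^ 3 + (c0 + c1 * s + c2 * s ^ 2) := by
  haveI : ExpChar F p := ExpChar.prime Fact.out
  have hpow : ∀ b : F, (b ^ p ^ j) ^ p = b := final_poly_pow hq
  have hpm : p ≤ p ^ j := by
    calc p = p ^ 1 := (pow_one p).symm
      _ ≤ p ^ j := Nat.pow_le_pow_right (by omega) hj
  have hK8 : 8 ≤ K.card := by
    have : 1 * p ^ j ≤ (p - 1) * p ^ j := Nat.mul_le_mul_right _ (by omega)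
    omega
  rcases Nat.lt_or_ge Ω.natDegree 4 with hd | hd
  · have hτ : ∀ s ∈ K, τ s = Ω.coeff 3 ^ p * s ^ 3 + (Ω.coeff 0 ^ p + Ω.coeff 1 ^ p * s +
        Ω.coeff 2 ^ p * s ^ 2) := by
      intro s hs
      have e1 := ht s hs
      rw [eval_eq_sum_range' hd] at e1
      simp only [sum_range_succ, sum_range_zero, zero_add, pow_zero, mul_one, pow_one] at e1
      have e2 : τ s = (Ω.coeff 0 + Ω.coeff 1 * s ^ p ^ j + Ω.coeff 2 * (s ^ p ^ j) ^ 2 +
          Ω.coeff 3 * (s ^ p ^ j) ^ 3) ^ p := by rw [← e1, hpow]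
      rw [e2, add_pow_char, add_pow_char, add_pow_char, mul_pow, mul_pow, mul_pow, ← pow_mul (s ^ p ^ j) 2 p,
        mul_comm 2 p, pow_mul (s ^ p ^ j) p 2, ← pow_mul (s ^ p ^ j) 3 p, mul_comm 3 p,
        pow_mul (s ^ p ^ j) p 3, hpow]
      ring
    refine ⟨_, _, _, _, ?_, hτ⟩
    intro e
    exact not_quad h subset_rfl (by omega) (c0 := Ω.coeff 0 ^ p) (c1 := Ω.coeff 1 ^ p)
      (c2 := Ω.coeff 2 ^ p) fun s hs => by rw [hτ s hs, e]; ring
  · exfalso
    set d := Ω.natDegree with hd'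
    -- `l = ceil (2 p / d)`
    obtain ⟨l, hl1, hl2⟩ : ∃ l : ℕ, 2 * p ≤ d * l ∧ d * l ≤ 2 * p + d - 1 := by
      refine ⟨(2 * p + d - 1) / d, ?_, Nat.mul_div_le _ _⟩
      have h1 := Nat.div_add_mod (2 * p + d - 1) d
      have h2 := Nat.mod_lt (2 * p + d - 1) (by omega : 0 < d)
      omega
    have hlp : l + 1 ≤ p := by
      by_contra hc
      have h1 : p ≤ l := by omega
      have h2 : d * p ≤ d * l := Nat.mul_le_mul_left _ h1
      have h3 : 4 * p ≤ d * p := Nat.mul_le_mul_right _ hd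
      omega
    obtain ⟨k, hk⟩ : ∃ k : ℕ, k + d * l = 3 * p - 1 := ⟨3 * p - 1 - d * l, by omega⟩
    have hk2 : k + 2 * l + 1 ≤ 2 * p := by
      -- `(d - 2) l ≥ p`
      have h1 : d * l ≤ 2 * ((d - 2) * l) := by
        obtain ⟨d', hd2⟩ : ∃ d', d = d' + 2 := ⟨d - 2, by omega⟩
        rw [hd2, Nat.add_sub_cancel]
        have h3 : 2 * l ≤ d' * l := Nat.mul_le_mul_right _ (by omega)
        have h4 : (d' + 2) * l = d' * l + 2 * l := by ring
        omega
      have h5 : (d - 2) * l + 2 * l = d * l := by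
        obtain ⟨d', hd2⟩ : ∃ d', d = d' + 2 := ⟨d - 2, by omega⟩
        rw [hd2, Nat.add_sub_cancel]; ring
      omega
    obtain ⟨G, hG, hGe⟩ := linK hp hq hj hlp hk2 hK h
    set W : F[X] := X ^ k * Ω ^ l with hW
    have hΩ0 : Ω ≠ 0 := by
      intro h0
      rw [hd', h0, natDegree_zero] at hd
      omega
    have hWd : W.natDegree = 3 * p - 1 := by
      rw [hW, natDegree_mul (pow_ne_zero _ X_ne_zero) (pow_ne_zero _ hΩ0), natDegree_X_pow,
        natDegree_pow, ← hd', mul_comm l d]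
      exact hk
    have hW0 : W ≠ 0 := mul_ne_zero (pow_ne_zero _ X_ne_zero) (pow_ne_zero _ hΩ0)
    obtain ⟨What, h1, h2, h3⟩ := final_poly_hat (F := F) (p := p) (m := p ^ j) (M := 3) (by omega)
      (by norm_num) (by omega) W (by rw [hWd]; omega) hpow
    have hGW : G = What := by
      refine poly_eq (K := K) (by omega) (by omega) fun b hb => ?_
      rw [hGe b hb, h2 b, hW, eval_mul, eval_pow, eval_pow, eval_X, ← ht b hb]
    have h4 : What.coeff ((p - 1) * p ^ j + (3 - 1)) = 0 := by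
      rw [← hGW]
      exact coeff_eq_zero_of_natDegree_lt (by omega)
    rw [h4, ← hWd, coeff_natDegree] at h3
    exact hW0 (leadingCoeff_eq_zero.1 h3.symm)

end Pool.Agent.L5helper34.OP
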