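import Pool.Agent.L5helper34.OP.LinY
set_option autoImplicit false
set_option linter.all false

namespace Pool.Agent.L5helper34.OP

open Finset Polynomial Pool.Agent.L5helper34.OC

variable {F : Type} [Field F] [DecidableEq F]

/-- divided differences of order `e + 1` -/
theorem poly_of_dd {K : Finset F} {e : ℕ} (hK : e + 1 ≤ K.card) (g : F → F)
    (h : ∀ Y ⊆ K, Y.card = e + 2 → ∑ b ∈ Y, g b / dP Y b = 0) :
    ∃ G : F[X], G.natDegree ≤ e ∧ ∀ b ∈ K, G.eval b = g b := by
  obtain ⟨B, hB, hBc⟩ := exists_subset_card_eq hK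
  have hinj : Set.InjOn (fun x : F => x) (B : Set F) := fun a _ b _ h => h
  set G := Lagrange.interpolate B (fun x : F => x) g with hG
  have hGe : ∀ b ∈ B, G.eval b = g b := fun b hb =>
    Lagrange.eval_interpolate_at_node g hinj hb
  have hdeg : G.natDegree ≤ e := by
    have h1 := Lagrange.degree_interpolate_lt g hinj
    rw [← hG, hBc] at h1
    by_cases h0 : G = 0
    · rw [h0, natDegree_zero]; omega
    · have h2 := (natDegree_lt_iff_degree_lt h0).2 h1
      omega
  refine ⟨G, hdeg, fun b hb => ?_⟩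
  by_cases hbB : b ∈ B
  · exact hGe b hbB
  have hYc : (insert b B).card = e + 2 := by rw [card_insert_of_notMem hbB, hBc]
  have h1 := h (insert b B) (insert_subset hb hB) hYc
  have h2 := sum_zero (insert b B) G (by rw [hYc]; omega)
  rw [sum_insert hbB] at h1 h2
  have h3 : ∑ c ∈ B, G.eval c / dP (insert b B) c = ∑ c ∈ B, g c / dP (insert b B) c :=
    sum_congr rfl fun c hc => by rw [hGe c hc]
  rw [h3] at h2
  have h4 : G.eval b / dP (insert b B) b = g b / dP (insert b B) b := by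
    linear_combination h2 - h1
  exact (div_left_inj' (dP_ne b)).1 h4

variable [Fintype F]

theorem linK {p j l k : ℕ} [Fact p.Prime] [CharP F p] (hp : 5 ≤ p)
    (hq : Fintype.card F = p ^ (j + 1)) (hj : 1 ≤ j) (hl : l + 1 ≤ p) (hk : k + 2 * l + 1 ≤ 2 * p)
    {K : Finset F} (hK : (p - 1) * p ^ j + 3 ≤ K.card) {τ : F → F} (h : NZ τ K) :
    ∃ G : F[X], G.natDegree ≤ (p - 1) * p ^ j + 1 ∧
      ∀ b ∈ K, G.eval b = (b ^ p ^ j) ^ k * (τ b ^ p ^ j) ^ l := by
  refine poly_of_dd (e := (p - 1) * p ^ j + 1) (by omega) _ fun Y hY hc => ?_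
  exact linY hp hq hj hl hk hc (h.mono hY)

end Pool.Agent.L5helper34.OP
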