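import Pool.Agent.L5helper34.OP.Base
set_option autoImplicit false
set_option linter.all false

namespace Pool.Agent.L5helper34.OP

open Finset Polynomial Pool.Agent.L5helper34.OC

variable {F : Type} [Field F] [DecidableEq F]

lemma pole_notMem_dd {τ : F → F} {μ l c0 c1 c2 A B D : F} (hA : A ≠ 0) (hB : B ≠ 0) (hD : D ≠ 0)
    (hAB : A - B ≠ 0) (hAD : A - D ≠ 0) (hBD : B - D ≠ 0)
    (h0 : τ μ = l * (A⁻¹ + B⁻¹ + D⁻¹) + (c0 + c1 * μ + c2 * μ ^ 2))
    (ha : τ (μ + A) = l / A + (c0 + c1 * (μ + A) + c2 * (μ + A) ^ 2))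
    (hb : τ (μ + B) = l / B + (c0 + c1 * (μ + B) + c2 * (μ + B) ^ 2))
    (hd : τ (μ + D) = l / D + (c0 + c1 * (μ + D) + c2 * (μ + D) ^ 2)) :
    dd3 τ μ (μ + A) (μ + B) (μ + D) = 0 := by
  unfold dd3
  rw [h0, ha, hb, hd]
  have e1 : μ - (μ + A) = -A := by ring
  have e2 : μ - (μ + B) = -B := by ring
  have e3 : μ - (μ + D) = -D := by ring
  have e4 : μ + A - μ = A := by ring
  have e5 : μ + B - μ = B := by ring
  have e6 : μ + D - μ = D := by ring
  have e7 : μ + A - (μ + B) = A - B := by ring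
  have e8 : μ + A - (μ + D) = A - D := by ring
  have e9 : μ + B - (μ + A) = -(A - B) := by ring
  have e10 : μ + B - (μ + D) = B - D := by ring
  have e11 : μ + D - (μ + A) = -(A - D) := by ring
  have e12 : μ + D - (μ + B) = -(B - D) := by ring
  rw [e1, e2, e3, e4, e5, e6, e7, e8, e9, e10, e11, e12]
  field_simp
  ring

variable [Fintype F]

/-- a simple pole is not in `K` -/
theorem pole_notMem (h2 : (2 : F) ≠ 0) {K : Finset F} (hK : Fintype.card F + 8 ≤ 2 * K.card)
    {τ : F → F} (h : NZ τ K) {μ l c0 c1 c2 : F} (hμ : μ ∈ K) (hl : l ≠ 0)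
    (ht : ∀ s ∈ K, s ≠ μ → τ s = l / (s - μ) + (c0 + c1 * s + c2 * s ^ 2)) : False := by
  set U : Finset F := (K.erase μ).image (fun s => (s - μ)⁻¹) with hU
  have hinj : Set.InjOn (fun s : F => (s - μ)⁻¹) (K.erase μ : Finset F) := by
    intro s _ s' _ he
    have : s - μ = s' - μ := inv_injective he
    simpa using this
  have hUc : U.card + 1 = K.card := by
    rw [hU, card_image_of_injOn hinj, card_erase_add_one hμ]
  have hcard : 0 < U.card := by
    have := card_le_univ K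
    omega
  obtain ⟨u1, hu1⟩ := card_pos.1 hcard
  set w : F := (τ μ - (c0 + c1 * μ + c2 * μ ^ 2)) / l - u1 with hw
  set U' := U.erase u1 with hU'
  have hU'c : U'.card + 1 = U.card := by rw [hU', card_erase_add_one hu1]
  set V := U'.image (fun u => w - u) with hV
  have hVc : V.card = U'.card := card_image_of_injective _ (sub_right_injective)
  have hcup := card_union_add_card_inter U' V
  have hle : (U' ∪ V).card ≤ Fintype.card F := card_le_univ _
  have hKle : K.card ≤ Fintype.card F := card_le_univ _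
  have hI : 1 < (U' ∩ V).card := by omega
  obtain ⟨u, hu, hne⟩ := exists_mem_ne hI (w / 2)
  rw [mem_inter] at hu
  obtain ⟨u2, hu2, he2⟩ := mem_image.1 hu.2
  have he2' : u2 = w - u := by rw [← he2]; ring
  have hne2 : u ≠ u2 := by
    intro hh
    apply hne
    field_simp
    rw [← hh] at he2'
    linear_combination he2'
  have hu' := mem_erase.1 hu.1
  have hu2' := mem_erase.1 hu2
  obtain ⟨a, ha, rfl⟩ := mem_image.1 hu1
  obtain ⟨b, hb, hbu⟩ := mem_image.1 hu'.2
  obtain ⟨d, hd, hdu⟩ := mem_image.1 hu2'.2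
  have ha' := mem_erase.1 ha
  have hb' := mem_erase.1 hb
  have hd' := mem_erase.1 hd
  have hA : a - μ ≠ 0 := sub_ne_zero.2 ha'.1
  have hB : b - μ ≠ 0 := sub_ne_zero.2 hb'.1
  have hD : d - μ ≠ 0 := sub_ne_zero.2 hd'.1
  have hab : a ≠ b := by
    rintro rfl
    exact hu'.1 hbu.symm
  have had : a ≠ d := by
    rintro rfl
    exact hu2'.1 hdu.symm
  have hbd : b ≠ d := by
    rintro rfl
    exact hne2 (hbu.symm.trans hdu)
  have hsum : τ μ = l * ((a - μ)⁻¹ + (b - μ)⁻¹ + (d - μ)⁻¹) + (c0 + c1 * μ + c2 * μ ^ 2) := by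
    have e : (b - μ)⁻¹ + (d - μ)⁻¹ = w := by
      rw [hbu, hdu, he2']; ring
    rw [add_assoc (a - μ)⁻¹, e, hw]
    field_simp
    ring
  refine h μ hμ a ha'.2 b hb'.2 d hd'.2 ha'.1.symm hb'.1.symm hd'.1.symm hab had hbd ?_
  have key := pole_notMem_dd (τ := τ) (μ := μ) (l := l) (c0 := c0) (c1 := c1) (c2 := c2) hA hB hD
    (by simpa [sub_eq_zero] using hab) (by simpa [sub_eq_zero] using had)
    (by simpa [sub_eq_zero] using hbd) hsum
  have ea : μ + (a - μ) = a := by ring
  have eb : μ + (b - μ) = b := by ring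
  have ed : μ + (d - μ) = d := by ring
  rw [ea, eb, ed] at key
  exact key (ht a ha'.2 ha'.1) (ht b hb'.2 hb'.1) (ht d hd'.2 hd'.1)

end Pool.Agent.L5helper34.OP
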