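import Pool.Agent.L5helper34.OP.KerZero
set_option autoImplicit false
set_option linter.all false

namespace Pool.Agent.L5helper34.OP

open Finset Polynomial Pool.Agent.L5helper34.OC

variable {F : Type} [Field F] [DecidableEq F]

/-- the double sum of a product function -/
noncomputable def quad1_T (K : Finset F) (P : F[X]) (f g : F → F) : F :=
  ∑ a ∈ K, ∑ b ∈ K, P.eval a * P.eval b * (f a * g b) / (dP K a * dP K b)

lemma quad1_bil (K : Finset F) (P : F[X]) (f g : F → F) :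
    quad1_T K P f g = L K f P * L K g P := by
  rw [OC.L_apply, OC.L_apply, sum_mul_sum]
  unfold quad1_T
  refine sum_congr rfl fun a _ => sum_congr rfl fun b _ => ?_
  rw [div_mul_div_comm]
  congr 1
  ring

lemma quad1_geom {p : ℕ} [Fact p.Prime] [CharP F p] (x y : F) :
    (x - y) ^ (p - 1) = ∑ l ∈ range p, x ^ l * y ^ (p - 1 - l) := by
  have hp := (Fact.out : p.Prime)
  by_cases h : x = y
  · subst h
    rw [sub_self, zero_pow (by have := hp.two_le; omega)]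
    have : ∀ l ∈ range p, x ^ l * x ^ (p - 1 - l) = x ^ (p - 1) := by
      intro l hl
      rw [mem_range] at hl
      rw [← pow_add]
      congr 1
      omega
    rw [sum_congr rfl this, sum_const, card_range, nsmul_eq_mul, CharP.cast_eq_zero, zero_mul]
  · have h1 : x - y ≠ 0 := sub_ne_zero.2 h
    have h2 := (Commute.all x y).geom_sum₂_mul p
    have h3 : (x - y) ^ (p - 1) * (x - y) = x ^ p - y ^ p := by
      rw [← pow_succ, Nat.sub_add_cancel hp.one_le, sub_pow_char]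
    exact mul_right_cancel₀ h1 (h3.trans h2.symm)

variable [Fintype F]

lemma quad1_pow {p j : ℕ} (hq : Fintype.card F = p ^ (j + 1)) (b : F) : (b ^ p ^ j) ^ p = b := by
  rw [← pow_mul, ← pow_succ, ← hq, FiniteField.pow_card]

/-- the functional of a power of `α` vanishes -/
lemma quad1_zero {p j D : ℕ} [Fact p.Prime] (hp : 5 ≤ p) (hq : Fintype.card F = p ^ (j + 1))
    {K : Finset F} (hK : K.card = (p - 2) * p ^ j + D + 3) (P : F[X]) (hP : P.natDegree ≤ D) {E : ℕ}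
    (hE : E + 4 ≤ 2 * p) (h0 : E ≠ p - 1) : L K (fun b => (b ^ p ^ j) ^ E) P = 0 := by
  have hm : 0 < p ^ j := pow_pos (by omega) _
  by_cases hEp : E < p
  · have h1 := L_pow K (p ^ j * E) P (by
      have : p ^ j * E ≤ (p - 2) * p ^ j := by
        rw [mul_comm]
        exact Nat.mul_le_mul_right _ (by omega)
      omega)
    rw [← h1]
    congr 1
    congr 1
    funext b
    rw [pow_mul]
  · obtain ⟨e, rfl⟩ : ∃ e, E = p + e := ⟨E - p, by omega⟩
    have h1 := L_pow K (1 + p ^ j * e) P (by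
      have : p ^ j * e ≤ (p - 2) * p ^ j := by
        rw [mul_comm]
        exact Nat.mul_le_mul_right _ (by omega)
      omega)
    rw [← h1]
    congr 1
    congr 1
    funext b
    rw [pow_add, quad1_pow hq, pow_add, pow_one, pow_mul]

lemma quad1_four {p : ℕ} [Fact p.Prime] [CharP F p] (hp : 5 ≤ p) : (4 : F) ≠ 0 := by
  have h : ((4 : ℕ) : F) ≠ 0 := by
    rw [Ne, CharP.cast_eq_zero_iff F p]
    intro hd
    have := Nat.le_of_dvd (by norm_num) hd
    omega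
  exact_mod_cast h

theorem quad1 {p j D i k : ℕ} [Fact p.Prime] [CharP F p] (hp : 5 ≤ p)
    (hq : Fintype.card F = p ^ (j + 1)) (hj : 1 ≤ j) {K : Finset F}
    (hK : K.card = (p - 2) * p ^ j + D + 3) {τ : F → F} (h : NZ τ K) (hi : i + 4 ≤ p)
    (hk : k + 4 ≤ p) (P : F[X]) (hP : P.natDegree ≤ D) :
    dl K (p ^ j) τ i P * dl K (p ^ j) τ (p + k) P =
      dl K (p ^ j) τ (p + i) P * dl K (p ^ j) τ k P := by
  have q1 := quadK hp hq hj hK h (i := k + 1) (k := i) (by omega) (by omega) P hP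
  have q2 := quadK hp hq hj hK h (i := i + 1) (k := k) (by omega) (by omega) P hP
  have z : ∀ E, E + 4 ≤ 2 * p → E ≠ p - 1 → L K (fun b => (b ^ p ^ j) ^ E) P = 0 :=
    fun E hE h0 => quad1_zero hp hq hK P hP hE h0
  have zi := z i (by omega) (by omega)
  have zk := z k (by omega) (by omega)
  have zpi := z (p + i) (by omega) (by omega)
  have zpk := z (p + k) (by omega) (by omega)
  have key : (∑ a ∈ K, ∑ b ∈ K, P.eval a * P.eval b * ((a ^ p ^ j - b ^ p ^ j) ^ (p - 1) *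
      (τ a ^ p ^ j - τ b ^ p ^ j) ^ 2 *
      ((a ^ p ^ j) ^ (k + 1) * (b ^ p ^ j) ^ i + (a ^ p ^ j) ^ i * (b ^ p ^ j) ^ (k + 1))) /
      (dP K a * dP K b)) - (∑ a ∈ K, ∑ b ∈ K, P.eval a * P.eval b *
      ((a ^ p ^ j - b ^ p ^ j) ^ (p - 1) *
      (τ a ^ p ^ j - τ b ^ p ^ j) ^ 2 *
      ((a ^ p ^ j) ^ (i + 1) * (b ^ p ^ j) ^ k + (a ^ p ^ j) ^ k * (b ^ p ^ j) ^ (i + 1))) /
      (dP K a * dP K b)) =
      (quad1_T K P (fun b => (b ^ p ^ j) ^ (p + k) * (τ b ^ p ^ j) ^ 2) (fun b => (b ^ p ^ j) ^ i) -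
      2 * quad1_T K P (fun b => (b ^ p ^ j) ^ (p + k) * τ b ^ p ^ j)
        (fun b => (b ^ p ^ j) ^ i * τ b ^ p ^ j) +
      quad1_T K P (fun b => (b ^ p ^ j) ^ (p + k)) (fun b => (b ^ p ^ j) ^ i * (τ b ^ p ^ j) ^ 2)) -
      (quad1_T K P (fun b => (b ^ p ^ j) ^ (p + i) * (τ b ^ p ^ j) ^ 2) (fun b => (b ^ p ^ j) ^ k) -
      2 * quad1_T K P (fun b => (b ^ p ^ j) ^ (p + i) * τ b ^ p ^ j)
        (fun b => (b ^ p ^ j) ^ k * τ b ^ p ^ j) +
      quad1_T K P (fun b => (b ^ p ^ j) ^ (p + i)) (fun b => (b ^ p ^ j) ^ k * (τ b ^ p ^ j) ^ 2)) -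
      (quad1_T K P (fun b => (b ^ p ^ j) ^ k * (τ b ^ p ^ j) ^ 2) (fun b => (b ^ p ^ j) ^ (p + i)) -
      2 * quad1_T K P (fun b => (b ^ p ^ j) ^ k * τ b ^ p ^ j)
        (fun b => (b ^ p ^ j) ^ (p + i) * τ b ^ p ^ j) +
      quad1_T K P (fun b => (b ^ p ^ j) ^ k) (fun b => (b ^ p ^ j) ^ (p + i) * (τ b ^ p ^ j) ^ 2)) +
      (quad1_T K P (fun b => (b ^ p ^ j) ^ i * (τ b ^ p ^ j) ^ 2) (fun b => (b ^ p ^ j) ^ (p + k)) -
      2 * quad1_T K P (fun b => (b ^ p ^ j) ^ i * τ b ^ p ^ j)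
        (fun b => (b ^ p ^ j) ^ (p + k) * τ b ^ p ^ j) +
      quad1_T K P (fun b => (b ^ p ^ j) ^ i) (fun b => (b ^ p ^ j) ^ (p + k) * (τ b ^ p ^ j) ^ 2)) := by
    unfold quad1_T
    simp only [mul_sum, ← sum_sub_distrib, ← sum_add_distrib]
    refine sum_congr rfl fun a _ => sum_congr rfl fun b _ => ?_
    have hu : (a ^ p ^ j - b ^ p ^ j) ^ (p - 1) * (a ^ p ^ j - b ^ p ^ j) = a - b := by
      rw [← pow_succ, Nat.sub_add_cancel (by omega), sub_pow_char, quad1_pow hq, quad1_pow hq]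
    have ha : ∀ e, (a ^ p ^ j) ^ (p + e) = a * (a ^ p ^ j) ^ e := fun e => by
      rw [pow_add, quad1_pow hq]
    have hb : ∀ e, (b ^ p ^ j) ^ (p + e) = b * (b ^ p ^ j) ^ e := fun e => by
      rw [pow_add, quad1_pow hq]
    rw [ha, ha, hb, hb]
    generalize (a ^ p ^ j - b ^ p ^ j) ^ (p - 1) = u at hu ⊢
    generalize a ^ p ^ j = x at hu ⊢
    generalize b ^ p ^ j = y at hu ⊢
    generalize τ a ^ p ^ j = s
    generalize τ b ^ p ^ j = t
    simp only [div_eq_mul_inv]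
    generalize (dP K a * dP K b)⁻¹ = w
    linear_combination (P.eval a * P.eval b * (s - t) ^ 2 * (x ^ k * y ^ i - x ^ i * y ^ k) * w) * hu
  rw [q1, q2] at key
  simp only [quad1_bil, zi, zk, zpi, zpk] at key
  have h4 := quad1_four (F := F) hp
  unfold dl
  have e : (4 : F) * (L K (fun b => (b ^ p ^ j) ^ i * τ b ^ p ^ j) P *
      L K (fun b => (b ^ p ^ j) ^ (p + k) * τ b ^ p ^ j) P -
      L K (fun b => (b ^ p ^ j) ^ (p + i) * τ b ^ p ^ j) P *
      L K (fun b => (b ^ p ^ j) ^ k * τ b ^ p ^ j) P) = 0 := by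
    linear_combination key
  exact sub_eq_zero.1 ((mul_eq_zero.1 e).resolve_left h4)

theorem quad2 {p j D r r' : ℕ} [Fact p.Prime] [CharP F p] (hp : 5 ≤ p)
    (hq : Fintype.card F = p ^ (j + 1)) (hj : 1 ≤ j) {K : Finset F}
    (hK : K.card = (p - 2) * p ^ j + D + 3) {τ : F → F} (h : NZ τ K) (hr : r + 3 ≤ p)
    (hr' : r' + 3 ≤ p) (P : F[X]) (hP : P.natDegree ≤ D) (h0 : om K (p ^ j) p P = 0) :
    ∑ l ∈ range p, dl K (p ^ j) τ (r + l) P * dl K (p ^ j) τ (r' + (p - 1 - l)) P = 0 := by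
  have q1 := quadK hp hq hj hK h (i := r) (k := r') (by omega) (by omega) P hP
  have z : ∀ E, E + 4 ≤ 2 * p → L K (fun b => (b ^ p ^ j) ^ E) P = 0 := by
    intro E hE
    by_cases hE0 : E = p - 1
    · rw [hE0]; exact h0
    · exact quad1_zero hp hq hK P hP hE hE0
  have key : ∑ a ∈ K, ∑ b ∈ K, P.eval a * P.eval b * ((a ^ p ^ j - b ^ p ^ j) ^ (p - 1) *
      (τ a ^ p ^ j - τ b ^ p ^ j) ^ 2 *
      ((a ^ p ^ j) ^ r * (b ^ p ^ j) ^ r' + (a ^ p ^ j) ^ r' * (b ^ p ^ j) ^ r)) /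
      (dP K a * dP K b) = ∑ l ∈ range p,
      ((quad1_T K P (fun b => (b ^ p ^ j) ^ (r + l) * (τ b ^ p ^ j) ^ 2)
        (fun b => (b ^ p ^ j) ^ (r' + (p - 1 - l))) -
      2 * quad1_T K P (fun b => (b ^ p ^ j) ^ (r + l) * τ b ^ p ^ j)
        (fun b => (b ^ p ^ j) ^ (r' + (p - 1 - l)) * τ b ^ p ^ j) +
      quad1_T K P (fun b => (b ^ p ^ j) ^ (r + l))
        (fun b => (b ^ p ^ j) ^ (r' + (p - 1 - l)) * (τ b ^ p ^ j) ^ 2)) +
      (quad1_T K P (fun b => (b ^ p ^ j) ^ (r' + l) * (τ b ^ p ^ j) ^ 2)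
        (fun b => (b ^ p ^ j) ^ (r + (p - 1 - l))) -
      2 * quad1_T K P (fun b => (b ^ p ^ j) ^ (r' + l) * τ b ^ p ^ j)
        (fun b => (b ^ p ^ j) ^ (r + (p - 1 - l)) * τ b ^ p ^ j) +
      quad1_T K P (fun b => (b ^ p ^ j) ^ (r' + l))
        (fun b => (b ^ p ^ j) ^ (r + (p - 1 - l)) * (τ b ^ p ^ j) ^ 2))) := by
    unfold quad1_T
    simp only [mul_sum, ← sum_sub_distrib, ← sum_add_distrib]
    symm
    rw [sum_comm]
    refine sum_congr rfl fun a _ => ?_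
    rw [sum_comm]
    refine sum_congr rfl fun b _ => ?_
    rw [quad1_geom]
    generalize a ^ p ^ j = x
    generalize b ^ p ^ j = y
    generalize τ a ^ p ^ j = s
    generalize τ b ^ p ^ j = t
    simp only [div_eq_mul_inv]
    generalize (dP K a * dP K b)⁻¹ = w
    have e : P.eval a * P.eval b * ((∑ l ∈ range p, x ^ l * y ^ (p - 1 - l)) * (s - t) ^ 2 *
        (x ^ r * y ^ r' + x ^ r' * y ^ r)) * w = ∑ l ∈ range p, x ^ l * y ^ (p - 1 - l) *
        (P.eval a * P.eval b * (s - t) ^ 2 * (x ^ r * y ^ r' + x ^ r' * y ^ r) * w) := by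
      rw [← sum_mul]; ring
    rw [e]
    refine sum_congr rfl fun l _ => ?_
    rw [pow_add, pow_add, pow_add, pow_add]
    ring
  rw [q1] at key
  have e1 : ∀ l ∈ range p, ((quad1_T K P (fun b => (b ^ p ^ j) ^ (r + l) * (τ b ^ p ^ j) ^ 2)
        (fun b => (b ^ p ^ j) ^ (r' + (p - 1 - l))) -
      2 * quad1_T K P (fun b => (b ^ p ^ j) ^ (r + l) * τ b ^ p ^ j)
        (fun b => (b ^ p ^ j) ^ (r' + (p - 1 - l)) * τ b ^ p ^ j) +
      quad1_T K P (fun b => (b ^ p ^ j) ^ (r + l))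
        (fun b => (b ^ p ^ j) ^ (r' + (p - 1 - l)) * (τ b ^ p ^ j) ^ 2)) +
      (quad1_T K P (fun b => (b ^ p ^ j) ^ (r' + l) * (τ b ^ p ^ j) ^ 2)
        (fun b => (b ^ p ^ j) ^ (r + (p - 1 - l))) -
      2 * quad1_T K P (fun b => (b ^ p ^ j) ^ (r' + l) * τ b ^ p ^ j)
        (fun b => (b ^ p ^ j) ^ (r + (p - 1 - l)) * τ b ^ p ^ j) +
      quad1_T K P (fun b => (b ^ p ^ j) ^ (r' + l))
        (fun b => (b ^ p ^ j) ^ (r + (p - 1 - l)) * (τ b ^ p ^ j) ^ 2))) =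
      -2 * (dl K (p ^ j) τ (r + l) P * dl K (p ^ j) τ (r' + (p - 1 - l)) P) +
      -2 * (dl K (p ^ j) τ (r' + l) P * dl K (p ^ j) τ (r + (p - 1 - l)) P) := by
    intro l hl
    rw [mem_range] at hl
    simp only [quad1_bil]
    rw [z (r' + (p - 1 - l)) (by omega), z (r + l) (by omega), z (r + (p - 1 - l)) (by omega),
      z (r' + l) (by omega)]
    unfold dl
    ring
  rw [sum_congr rfl e1, sum_add_distrib, ← mul_sum, ← mul_sum] at key
  have e2 : ∑ l ∈ range p, dl K (p ^ j) τ (r' + l) P * dl K (p ^ j) τ (r + (p - 1 - l)) P =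
      ∑ l ∈ range p, dl K (p ^ j) τ (r + l) P * dl K (p ^ j) τ (r' + (p - 1 - l)) P := by
    rw [← sum_range_reflect]
    refine sum_congr rfl fun l hl => ?_
    rw [mem_range] at hl
    rw [show p - 1 - (p - 1 - l) = l by omega, mul_comm]
  rw [e2] at key
  have h4 := quad1_four (F := F) hp
  have e3 : (4 : F) * ∑ l ∈ range p, dl K (p ^ j) τ (r + l) P *
      dl K (p ^ j) τ (r' + (p - 1 - l)) P = 0 := by
    linear_combination key
  exact (mul_eq_zero.1 e3).resolve_left h4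

end Pool.Agent.L5helper34.OP
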