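import Pool.Agent.L5helper34.OP.Struct
import Pool.Agent.L5helper34.OP.Quad12
import Pool.Agent.L5helper34.OP.LinK
import Pool.Agent.L5helper34.OP.FinalPoly
import Pool.Agent.L5helper34.OP.FinalPole
import Pool.Agent.L5helper34.OP.PoleNotMem
set_option autoImplicit false
set_option linter.all false

/-!
# One conical projection, `p ≥ 5`: the dichotomy
-/

namespace Pool.Agent.L5helper34.OP

open Finset Polynomial Pool.Agent.L5helper34.OC

variable {F : Type} [Field F] [DecidableEq F] [Fintype F]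

theorem core_p {p j : ℕ} [Fact p.Prime] [CharP F p] (hp : 5 ≤ p)
    (hq : Fintype.card F = p ^ (j + 1)) (hj : 1 ≤ j) {K : Finset F}
    (hK : (p - 1) * p ^ j + 4 ≤ K.card) {τ : F → F} (h : NZ τ K) :
    (∃ l c0 c1 c2 : F, l ≠ 0 ∧ ∀ s ∈ K, τ s = l * s ^ 3 + (c0 + c1 * s + c2 * s ^ 2)) ∨
      (∃ x l c0 c1 c2 : F, l ≠ 0 ∧ x ∉ K ∧
        ∀ s ∈ K, τ s = l / (s - x) + (c0 + c1 * s + c2 * s ^ 2)) := by
  have hm1 : (p - 1) * p ^ j = (p - 2) * p ^ j + p ^ j := by
    rw [show p - 1 = (p - 2) + 1 by omega, add_mul, one_mul]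
  have hmp : p ≤ p ^ j := by
    calc p = p ^ 1 := (pow_one p).symm
      _ ≤ p ^ j := Nat.pow_le_pow_right (by omega) hj
  have hq' : Fintype.card F = p * p ^ j := by rw [hq, pow_succ, mul_comm]
  have hqm : p * p ^ j = (p - 1) * p ^ j + p ^ j := by
    conv_lhs => rw [show p = (p - 1) + 1 by omega]
    rw [add_mul, one_mul, show p - 1 + 1 = p by omega]
  have h2 : (2 : F) ≠ 0 := by
    intro e
    have h1 : ((2 : ℕ) : F) = 0 := by exact_mod_cast e
    rw [CharP.cast_eq_zero_iff F p] at h1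
    have := Nat.le_of_dvd (by norm_num) h1
    omega
  obtain ⟨D, hD⟩ : ∃ D, K.card = (p - 2) * p ^ j + D + 3 := ⟨K.card - (p - 2) * p ^ j - 3, by omega⟩
  have H : Hyp p (p ^ j) D K τ :=
    { hp := hp
      hm := hmp
      pow := fun b => by rw [← hq']; exact FiniteField.pow_card b
      card := hD
      big := by omega
      q1 := fun i k hi hk P hP => quad1 hp hq hj hD h hi hk P hP
      q2 := fun r r' hr hr' P hP h0 => quad2 hp hq hj hD h hr hr' P hP h0
      lin := fun k hk => by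
        obtain ⟨G, h1, h2⟩ := linK (l := 1) (k := k) hp hq hj (by omega) (by omega)
          (by omega) h
        exact ⟨G, h1, fun b hb => by rw [h2 b hb, pow_one]⟩ }
  rcases structure_thm H with ⟨Ω, h1, h3⟩ | ⟨μ, A, Ω, h1, h3, h4, h5⟩
  · left
    exact final_poly hp hq hj (by omega) h Ω h1 h3
  · right
    by_cases hμ : μ ∈ K
    · exfalso
      have hc : (K.erase μ).card = K.card - 1 := card_erase_of_mem hμ
      obtain ⟨l, c0, c1, c2, hl, hs⟩ := final_pole (K := K.erase μ) hp hq hj (by omega)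
        (h.mono (erase_subset μ K)) μ (notMem_erase μ K) A Ω h1 h3 h4 fun b hb =>
          h5 b (mem_of_mem_erase hb) (ne_of_mem_erase hb)
      exact pole_notMem h2 (by omega) h hμ hl fun s hs' hne => hs s (mem_erase.2 ⟨hne, hs'⟩)
    · obtain ⟨l, c0, c1, c2, hl, hs⟩ := final_pole hp hq hj (by omega) h μ hμ A Ω h1 h3 h4
        fun b hb => h5 b hb fun e => hμ (e ▸ hb)
      exact ⟨μ, l, c0, c1, c2, hl, hμ, hs⟩

end Pool.Agent.L5helper34.OP
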