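import Pool.Agent.L5helper34.OP.Base
set_option autoImplicit false
set_option linter.all false

namespace Pool.Agent.L5helper34.OP

open Finset Polynomial Pool.Agent.L5helper34.OC

variable {F : Type} [Field F] [DecidableEq F] [Fintype F]

lemma sym_extract_A {ι : Type} (s : Finset ι) (w x z : ι → F) {p R : ℕ} [Fact p.Prime] [CharP F p]
    (hRp : R < p) (hR : R < Fintype.card F)
    (h : ∀ r ≤ R, ∀ η : F, ∑ π ∈ s, w π * ((η - x π) * (η - z π)) ^ r = 0) :
    ∀ r ≤ R, ∀ l ≤ r, ∑ π ∈ s, w π * ((x π + z π) ^ l * (x π * z π) ^ (r - l)) = 0 := by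
  intro r
  induction r using Nat.strong_induction_on with
  | _ r ih =>
    intro hr
    -- the lower powers vanish
    have h1 : ∀ i ≤ R, ∀ η : F, ∑ π ∈ s, w π * (x π * z π - η * (x π + z π)) ^ i =
        ∑ l ∈ range (i + 1), (((i.choose l : ℕ) : F) * (-1) ^ l *
          ∑ π ∈ s, w π * ((x π + z π) ^ l * (x π * z π) ^ (i - l))) * η ^ l := by
      intro i _ η
      have e1 : ∀ π ∈ s, w π * (x π * z π - η * (x π + z π)) ^ i =
          ∑ l ∈ range (i + 1), w π * ((x π + z π) ^ l * (x π * z π) ^ (i - l)) *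
            (((i.choose l : ℕ) : F) * (-1) ^ l * η ^ l) := by
        intro π _
        rw [show x π * z π - η * (x π + z π) = (-(η * (x π + z π))) + x π * z π by ring, add_pow,
          mul_sum]
        refine sum_congr rfl fun l _ => ?_
        rw [neg_pow, mul_pow]
        ring
      rw [sum_congr rfl e1, sum_comm]
      refine sum_congr rfl fun l _ => ?_
      rw [← sum_mul]
      ring
    have h2 : ∀ i < r, ∀ η : F, ∑ π ∈ s, w π * (x π * z π - η * (x π + z π)) ^ i = 0 := by
      intro i hi η
      rw [h1 i (by omega) η]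
      refine sum_eq_zero fun l hl => ?_
      rw [ih i hi (by omega) l (by rw [mem_range] at hl; omega)]
      ring
    have h3 : ∀ η : F, ∑ π ∈ s, w π * (x π * z π - η * (x π + z π)) ^ r = 0 := by
      intro η
      have e1 := h r hr η
      have e2 : ∀ π ∈ s, w π * ((η - x π) * (η - z π)) ^ r =
          ∑ i ∈ range (r + 1), (w π * (x π * z π - η * (x π + z π)) ^ i) *
            ((η ^ 2) ^ (r - i) * ((r.choose i : ℕ) : F)) := by
        intro π _
        rw [show (η - x π) * (η - z π) = (x π * z π - η * (x π + z π)) + η ^ 2 by ring, add_pow,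
          mul_sum]
        refine sum_congr rfl fun l _ => ?_
        ring
      rw [sum_congr rfl e2, sum_comm, sum_range_succ] at e1
      rw [sum_eq_zero (s := range r)] at e1
      · rw [zero_add, ← sum_mul, Nat.sub_self, pow_zero, Nat.choose_self] at e1
        simpa using e1
      · intro i hi
        rw [← sum_mul, h2 i (mem_range.1 hi) η, zero_mul]
    -- the polynomial in `η`
    set c : ℕ → F := fun l => ((r.choose l : ℕ) : F) * (-1) ^ l *
        ∑ π ∈ s, w π * ((x π + z π) ^ l * (x π * z π) ^ (r - l)) with hc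
    set Q : F[X] := ∑ l ∈ range (r + 1), Polynomial.C (c l) * Polynomial.X ^ l with hQ
    have hQ0 : Q = 0 := by
      apply Polynomial.eq_zero_of_natDegree_lt_card_of_eval_eq_zero' Q Finset.univ
      · intro η _
        rw [hQ, Polynomial.eval_finsetSum]
        simp only [Polynomial.eval_mul, Polynomial.eval_C, Polynomial.eval_pow, Polynomial.eval_X]
        rw [← h3 η, h1 r hr η]
      · have hd : Q.natDegree ≤ r := by
          rw [hQ]
          apply Polynomial.natDegree_sum_le_of_forall_le
          intro l hl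
          rw [mem_range] at hl
          exact (Polynomial.natDegree_C_mul_X_pow_le _ _).trans (by omega)
        rw [Finset.card_univ]
        omega
    intro l hl
    have h4 : Q.coeff l = c l := by
      rw [hQ, Polynomial.finsetSum_coeff]
      simp only [Polynomial.coeff_C_mul, Polynomial.coeff_X_pow]
      rw [sum_eq_single l]
      · simp
      · intro b _ hb
        rw [if_neg (Ne.symm hb), mul_zero]
      · intro hl'
        exact absurd (mem_range.2 (by omega)) hl'
    rw [hQ0, Polynomial.coeff_zero] at h4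
    have h5 : ((r.choose l : ℕ) : F) ≠ 0 := by
      intro h0
      rw [CharP.cast_eq_zero_iff F p] at h0
      have hpp : p.Prime := Fact.out
      have h6 : p ∣ r.factorial := by
        rw [← Nat.choose_mul_factorial_mul_factorial hl, mul_assoc]
        exact h0.mul_right _
      have h7 := (hpp.dvd_factorial).1 h6
      omega
    have h6 : ((-1 : F)) ^ l ≠ 0 := pow_ne_zero _ (neg_ne_zero.2 one_ne_zero)
    have h7 := h4.symm
    rw [hc] at h7
    simp only [mul_eq_zero] at h7
    rcases h7 with (h7 | h7) | h7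
    · exact absurd h7 h5
    · exact absurd h7 h6
    · exact h7

lemma sym_extract_B {ι : Type} (s : Finset ι) (w x z : ι → F) {R : ℕ}
    (hA : ∀ r ≤ R, ∀ l ≤ r, ∑ π ∈ s, w π * ((x π + z π) ^ l * (x π * z π) ^ (r - l)) = 0) :
    ∀ n l r' : ℕ, l + r' + n ≤ R →
      ∑ π ∈ s, w π * ((x π + z π) ^ l * (x π * z π) ^ r' * (x π ^ n + z π ^ n)) = 0 := by
  have hA' : ∀ l r' : ℕ, l + r' ≤ R → ∑ π ∈ s, w π * ((x π + z π) ^ l * (x π * z π) ^ r') = 0 := by
    intro l r' h
    have := hA (l + r') h l (by omega)
    rwa [Nat.add_sub_cancel_left] at this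
  intro n
  induction n using Nat.strong_induction_on with
  | _ n ih =>
    intro l r' h
    rcases n with _ | _ | n
    · have e : ∀ π ∈ s, w π * ((x π + z π) ^ l * (x π * z π) ^ r' * (x π ^ 0 + z π ^ 0)) =
          w π * ((x π + z π) ^ l * (x π * z π) ^ r') * 2 := by
        intro π _
        ring
      rw [sum_congr rfl e, ← sum_mul, hA' l r' (by omega), zero_mul]
    · have e : ∀ π ∈ s, w π * ((x π + z π) ^ l * (x π * z π) ^ r' * (x π ^ (0 + 1) + z π ^ (0 + 1))) =
          w π * ((x π + z π) ^ (l + 1) * (x π * z π) ^ r') := by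
        intro π _
        ring
      rw [sum_congr rfl e, hA' (l + 1) r' (by omega)]
    · have e : ∀ π ∈ s, w π * ((x π + z π) ^ l * (x π * z π) ^ r' *
            (x π ^ (n + 1 + 1) + z π ^ (n + 1 + 1))) =
          w π * ((x π + z π) ^ (l + 1) * (x π * z π) ^ r' * (x π ^ (n + 1) + z π ^ (n + 1))) -
          w π * ((x π + z π) ^ l * (x π * z π) ^ (r' + 1) * (x π ^ n + z π ^ n)) := by
        intro π _
        ring
      rw [sum_congr rfl e, sum_sub_distrib, ih (n + 1) (by omega) (l + 1) r' (by omega),
        ih n (by omega) l (r' + 1) (by omega), sub_zero]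

theorem sym_extract {ι : Type} (s : Finset ι) (w x z : ι → F) {p R : ℕ} [Fact p.Prime] [CharP F p]
    (hRp : R < p) (hR : R < Fintype.card F)
    (h : ∀ r ≤ R, ∀ η : F, ∑ π ∈ s, w π * ((η - x π) * (η - z π)) ^ r = 0) {i k : ℕ} (hi : i ≤ R)
    (hk : k ≤ R) : ∑ π ∈ s, w π * (x π ^ i * z π ^ k + x π ^ k * z π ^ i) = 0 := by
  have hA := sym_extract_A s w x z hRp hR h
  have hB := sym_extract_B s w x z hA
  have key : ∀ i k : ℕ, i ≤ k → k ≤ R →
      ∑ π ∈ s, w π * (x π ^ i * z π ^ k + x π ^ k * z π ^ i) = 0 := by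
    intro i k hik hk
    obtain ⟨n, rfl⟩ := Nat.exists_eq_add_of_le hik
    have e : ∀ π ∈ s, w π * (x π ^ i * z π ^ (i + n) + x π ^ (i + n) * z π ^ i) =
        w π * ((x π + z π) ^ 0 * (x π * z π) ^ i * (x π ^ n + z π ^ n)) := by
      intro π _
      rw [pow_add, pow_add]
      ring
    rw [sum_congr rfl e]
    exact hB n 0 i (by omega)
  rcases le_total i k with hik | hik
  · exact key i k hik hk
  · have e : ∀ π ∈ s, w π * (x π ^ i * z π ^ k + x π ^ k * z π ^ i) =
        w π * (x π ^ k * z π ^ i + x π ^ i * z π ^ k) := by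
      intro π _
      ring
    rw [sum_congr rfl e]
    exact key k i hik hi

end Pool.Agent.L5helper34.OP
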