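import Pool.Agent.L5helper34.OP.RelS
import Pool.Agent.L5helper34.OP.Sym
set_option autoImplicit false
set_option linter.all false

namespace Pool.Agent.L5helper34.OP

open Finset Polynomial Pool.Agent.L5helper34.OC

variable {F : Type} [Field F] [DecidableEq F]

/-- the bilinear form of a kernel -/
noncomputable def ker_zero_B (K : Finset F) (g : F → F → F) (P R : F[X]) : F :=
  ∑ a ∈ K, ∑ b ∈ K, P.eval a * R.eval b * g a b / (dP K a * dP K b)

lemma ker_zero_add_left (K : Finset F) (g : F → F → F) (P P' R : F[X]) :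
    ker_zero_B K g (P + P') R = ker_zero_B K g P R + ker_zero_B K g P' R := by
  unfold ker_zero_B
  simp only [← sum_add_distrib]
  refine sum_congr rfl fun a _ => sum_congr rfl fun b _ => ?_
  rw [eval_add]; ring

lemma ker_zero_smul_left (K : Finset F) (g : F → F → F) (c : F) (P R : F[X]) :
    ker_zero_B K g (c • P) R = c * ker_zero_B K g P R := by
  unfold ker_zero_B
  simp only [mul_sum]
  refine sum_congr rfl fun a _ => sum_congr rfl fun b _ => ?_
  rw [eval_smul, smul_eq_mul]; ring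

lemma ker_zero_symm (K : Finset F) (g : F → F → F) (hg : ∀ a b, g a b = g b a) (P R : F[X]) :
    ker_zero_B K g P R = ker_zero_B K g R P := by
  unfold ker_zero_B
  rw [sum_comm]
  refine sum_congr rfl fun a _ => sum_congr rfl fun b _ => ?_
  rw [hg b a]; ring

lemma ker_zero_add_right (K : Finset F) (g : F → F → F) (hg : ∀ a b, g a b = g b a)
    (P R R' : F[X]) :
    ker_zero_B K g P (R + R') = ker_zero_B K g P R + ker_zero_B K g P R' := by
  rw [ker_zero_symm K g hg, ker_zero_add_left, ker_zero_symm K g hg R, ker_zero_symm K g hg R']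

lemma ker_zero_smul_right (K : Finset F) (g : F → F → F) (hg : ∀ a b, g a b = g b a) (c : F)
    (P R : F[X]) :
    ker_zero_B K g P (c • R) = c * ker_zero_B K g P R := by
  rw [ker_zero_symm K g hg, ker_zero_smul_left, ker_zero_symm K g hg R]

lemma ker_zero_prod (K : Finset F) (g : F → F → F) (Z : Finset F) (hZ : Z ⊆ K) :
    ker_zero_B K g (∏ z ∈ Z, (X - C z)) (∏ z ∈ Z, (X - C z)) =
      ∑ a ∈ K \ Z, ∑ b ∈ K \ Z, g a b / (dP (K \ Z) a * dP (K \ Z) b) := by
  have h1 := L_res K Z hZ (fun a => L K (fun b => g a b) (∏ z ∈ Z, (X - C z)))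
  have h2 : ker_zero_B K g (∏ z ∈ Z, (X - C z)) (∏ z ∈ Z, (X - C z)) =
      L K (fun a => L K (fun b => g a b) (∏ z ∈ Z, (X - C z))) (∏ z ∈ Z, (X - C z)) := by
    unfold ker_zero_B
    rw [OC.L_apply]
    refine sum_congr rfl fun a _ => ?_
    rw [OC.L_apply, mul_sum, sum_div]
    refine sum_congr rfl fun b _ => ?_
    have := dP_ne (Y := K) a
    have := dP_ne (Y := K) b
    field_simp
  rw [h2, h1]
  refine sum_congr rfl fun a _ => ?_
  rw [L_res K Z hZ, sum_div]
  refine sum_congr rfl fun b _ => ?_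
  have := dP_ne (Y := K \ Z) a
  have := dP_ne (Y := K \ Z) b
  field_simp

/-- polarization -/
lemma ker_zero_quad {A B b11 b12 b13 b22 b23 b33 s t : F}
    (q1 : b11 = 0) (q2 : b22 = 0) (q3 : b33 = 0)
    (q13 : b11 + b13 + (b13 + b33) = 0)
    (q23 : b22 + b23 + (b23 + b33) = 0)
    (q12 : s * (s * b11 + t * b12) + t * (s * b12 + t * b22) = 0) (hs : s ≠ 0) (ht : t ≠ 0) :
    A * (A * b11 + B * b12 + b13) + B * (A * b12 + B * b22 + b23) + (A * b13 + B * b23 + b33)
      = 0 := by
  have h12 : 2 * b12 = 0 := by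
    have h : s * t * (2 * b12) = 0 := by
      linear_combination q12 - s ^ 2 * q1 - t ^ 2 * q2
    exact (mul_eq_zero.1 h).resolve_left (mul_ne_zero hs ht)
  linear_combination A ^ 2 * q1 + B ^ 2 * q2 + q3 + A * B * h12 + A * (q13 - q1 - q3) +
    B * (q23 - q2 - q3)

lemma ker_zero_step {K : Finset F} {D : ℕ} (hK : D + 3 ≤ K.card) (g : F → F → F)
    (hg : ∀ a b, g a b = g b a)
    (h : ∀ Y ⊆ K, Y.card + D = K.card → ∑ a ∈ Y, ∑ b ∈ Y, g a b / (dP Y a * dP Y b) = 0)
    (i : ℕ) :
    ∀ (Z : Finset F), Z ⊆ K → Z.card + i = D → ∀ p : F[X], p.natDegree ≤ i →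
      ker_zero_B K g ((∏ z ∈ Z, (X - C z)) * p) ((∏ z ∈ Z, (X - C z)) * p) = 0 := by
  classical
  induction i with
  | zero =>
    intro Z hZ hZD p hp
    rw [eq_C_of_natDegree_le_zero hp, mul_comm, ← smul_eq_C_mul, ker_zero_smul_left,
      ker_zero_smul_right _ _ hg, ker_zero_prod K g Z hZ,
      h (K \ Z) sdiff_subset (by rw [card_sdiff_of_subset hZ]; omega)]
    ring
  | succ i ih =>
    intro Z hZ hZD p hp
    -- vanishing on the polynomials with a zero in `K \ Z`
    have key : ∀ z ∈ K \ Z, ∀ r : F[X], r.natDegree ≤ i + 1 → r.eval z = 0 →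
        ker_zero_B K g ((∏ z ∈ Z, (X - C z)) * r) ((∏ z ∈ Z, (X - C z)) * r) = 0 := by
      intro z hz r hr hrz
      rw [mem_sdiff] at hz
      have h1 : (X - C z) * (r /ₘ (X - C z)) = r := mul_divByMonic_eq_iff_isRoot.2 hrz
      have h2 : (r /ₘ (X - C z)).natDegree ≤ i := by
        rw [natDegree_divByMonic _ (monic_X_sub_C z), natDegree_X_sub_C]; omega
      have h3 := ih (insert z Z) (insert_subset hz.1 hZ)
        (by rw [card_insert_of_notMem hz.2]; omega) _ h2
      rw [prod_insert hz.2] at h3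
      have h4 : (∏ z ∈ Z, (X - C z)) * r =
          (X - C z) * (∏ z ∈ Z, (X - C z)) * (r /ₘ (X - C z)) := by
        conv_lhs => rw [← h1]
        ring
      rw [h4]
      exact h3
    have hcard : 2 < (K \ Z).card := by rw [card_sdiff_of_subset hZ]; omega
    obtain ⟨z1, z2, z3, hz1, hz2, hz3, h12, h13, h23⟩ := two_lt_card_iff.1 hcard
    have s12 := sub_ne_zero.2 h12
    have s21 := sub_ne_zero.2 h12.symm
    have s31 := sub_ne_zero.2 h13.symm
    have s32 := sub_ne_zero.2 h23.symm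
    set A := p.eval z1 / (z1 - z2) with hA
    set B := p.eval z2 / (z2 - z1) with hB
    set r : F[X] := p - (A • (X - C z2) + B • (X - C z1)) with hr
    have hA' : A * (z1 - z2) = p.eval z1 := by rw [hA]; field_simp
    have hB' : B * (z2 - z1) = p.eval z2 := by rw [hB]; field_simp
    have rd : r.natDegree ≤ i + 1 := by
      refine (natDegree_sub_le _ _).trans (max_le hp ?_)
      refine (natDegree_add_le _ _).trans (max_le ?_ ?_)
      · refine (natDegree_smul_le _ _).trans ?_
        rw [natDegree_X_sub_C]; omega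
      · refine (natDegree_smul_le _ _).trans ?_
        rw [natDegree_X_sub_C]; omega
    have r1 : r.eval z1 = 0 := by
      rw [hr]
      simp only [eval_sub, eval_add, eval_smul, eval_X, eval_C, smul_eq_mul]
      linear_combination -hA'
    have r2 : r.eval z2 = 0 := by
      rw [hr]
      simp only [eval_sub, eval_add, eval_smul, eval_X, eval_C, smul_eq_mul]
      linear_combination -hB'
    have xd : ∀ z : F, (X - C z : F[X]).natDegree ≤ i + 1 := fun z => by
      rw [natDegree_X_sub_C]; omega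
    have xe : ∀ z : F, (X - C z : F[X]).eval z = 0 := fun z => by simp
    have q1 := key z2 hz2 (X - C z2) (xd z2) (xe z2)
    have q2 := key z1 hz1 (X - C z1) (xd z1) (xe z1)
    have q3 := key z1 hz1 r rd r1
    have q13 := key z2 hz2 ((X - C z2) + r) ((natDegree_add_le _ _).trans (max_le (xd z2) rd))
      (by rw [eval_add, xe, r2, add_zero])
    have q23 := key z1 hz1 ((X - C z1) + r) ((natDegree_add_le _ _).trans (max_le (xd z1) rd))
      (by rw [eval_add, xe, r1, add_zero])
    have q12 := key z3 hz3 ((z3 - z1) • (X - C z2) + (-(z3 - z2)) • (X - C z1))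
      ((natDegree_add_le _ _).trans (max_le ((natDegree_smul_le _ _).trans (xd z2))
        ((natDegree_smul_le _ _).trans (xd z1))))
      (by simp only [eval_sub, eval_add, eval_smul, eval_X, eval_C, smul_eq_mul]; ring)
    have hp' : p = A • (X - C z2) + B • (X - C z1) + r := by rw [hr]; ring
    have hpA : (∏ z ∈ Z, (X - C z)) * p = A • ((∏ z ∈ Z, (X - C z)) * (X - C z2)) +
        B • ((∏ z ∈ Z, (X - C z)) * (X - C z1)) + (∏ z ∈ Z, (X - C z)) * r := by
      conv_lhs => rw [hp']
      rw [mul_add, mul_add, mul_smul_comm, mul_smul_comm]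
    rw [hpA]
    rw [mul_add] at q13 q23 q12
    rw [mul_smul_comm, mul_smul_comm] at q12
    generalize (∏ z ∈ Z, (X - C z)) * (X - C z2) = u1 at *
    generalize (∏ z ∈ Z, (X - C z)) * (X - C z1) = u2 at *
    generalize (∏ z ∈ Z, (X - C z)) * r = u3 at *
    simp only [ker_zero_add_left, ker_zero_add_right _ _ hg, ker_zero_smul_left,
      ker_zero_smul_right _ _ hg] at q13 q23 q12 ⊢
    rw [ker_zero_symm K g hg u3 u1] at q13
    rw [ker_zero_symm K g hg u3 u2] at q23
    rw [ker_zero_symm K g hg u2 u1] at q12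
    rw [ker_zero_symm K g hg u3 u1, ker_zero_symm K g hg u3 u2, ker_zero_symm K g hg u2 u1]
    have := ker_zero_quad (A := A) (B := B) (b12 := ker_zero_B K g u1 u2)
      (b13 := ker_zero_B K g u1 u3) (b23 := ker_zero_B K g u2 u3) q1 q2 q3
      (by linear_combination q13) (by linear_combination q23) (by linear_combination q12) s31
      (neg_ne_zero.2 s32)
    linear_combination this

/-- from the subsets to all polynomials of degree at most `D` -/
theorem ker_zero (h2 : (2 : F) ≠ 0) {K : Finset F} {D : ℕ} (hK : D + 3 ≤ K.card) (g : F → F → F)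
    (hg : ∀ a b, g a b = g b a)
    (h : ∀ Y ⊆ K, Y.card + D = K.card → ∑ a ∈ Y, ∑ b ∈ Y, g a b / (dP Y a * dP Y b) = 0)
    (P : F[X]) (hP : P.natDegree ≤ D) :
    ∑ a ∈ K, ∑ b ∈ K, P.eval a * P.eval b * g a b / (dP K a * dP K b) = 0 := by
  have h1 := ker_zero_step hK g hg h D ∅ (empty_subset _) (by simp) P hP
  rw [prod_empty, one_mul] at h1
  exact h1

variable [Fintype F]

/-- the quadratic relations -/
theorem quadK {p j D i k : ℕ} [Fact p.Prime] [CharP F p] (hp : 5 ≤ p)
    (hq : Fintype.card F = p ^ (j + 1)) (hj : 1 ≤ j) {K : Finset F}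
    (hK : K.card = (p - 2) * p ^ j + D + 3) {τ : F → F} (h : NZ τ K) (hi : i + 3 ≤ p)
    (hk : k + 3 ≤ p) (P : F[X]) (hP : P.natDegree ≤ D) :
    ∑ a ∈ K, ∑ b ∈ K, P.eval a * P.eval b * ((a ^ p ^ j - b ^ p ^ j) ^ (p - 1) *
      (τ a ^ p ^ j - τ b ^ p ^ j) ^ 2 *
      ((a ^ p ^ j) ^ i * (b ^ p ^ j) ^ k + (a ^ p ^ j) ^ k * (b ^ p ^ j) ^ i)) /
      (dP K a * dP K b) = 0 := by
  have hpp : p.Prime := Fact.out
  have hev : Even (p - 1) := by
    have h1 : p ≠ 2 := by omega
    have h2 := hpp.odd_of_ne_two h1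
    rw [Nat.even_iff]
    rw [Nat.odd_iff] at h2
    omega
  have h2 : (2 : F) ≠ 0 := by
    intro h0
    have h1 : ((2 : ℕ) : F) = 0 := by exact_mod_cast h0
    rw [CharP.cast_eq_zero_iff F p] at h1
    exact absurd (Nat.le_of_dvd (by norm_num) h1) (by omega)
  refine ker_zero h2 (D := D) (by omega) (fun a b => ((a ^ p ^ j - b ^ p ^ j) ^ (p - 1) *
      (τ a ^ p ^ j - τ b ^ p ^ j) ^ 2 *
      ((a ^ p ^ j) ^ i * (b ^ p ^ j) ^ k + (a ^ p ^ j) ^ k * (b ^ p ^ j) ^ i))) ?_ ?_ P hP
  · intro a b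
    have e1 : (a ^ p ^ j - b ^ p ^ j) ^ (p - 1) = (b ^ p ^ j - a ^ p ^ j) ^ (p - 1) := by
      rw [← hev.neg_pow, neg_sub]
    show (a ^ p ^ j - b ^ p ^ j) ^ (p - 1) * _ * _ = (b ^ p ^ j - a ^ p ^ j) ^ (p - 1) * _ * _
    rw [e1]
    ring
  · intro Y hY hYc
    have hYcard : Y.card = (p - 2) * p ^ j + 3 := by omega
    have hNZ : NZ τ Y := h.mono hY
    have hRF : p - 3 < Fintype.card F := by
      rw [hq]
      calc p - 3 < p := by omega
        _ = p ^ 1 := (pow_one p).symm
        _ ≤ p ^ (j + 1) := Nat.pow_le_pow_right (by omega) (by omega)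
    have h3 := sym_extract (Y ×ˢ Y) (fun π => (π.1 ^ p ^ j - π.2 ^ p ^ j) ^ (p - 1) *
      (τ π.1 ^ p ^ j - τ π.2 ^ p ^ j) ^ 2 / (dP Y π.1 * dP Y π.2)) (fun π => π.1 ^ p ^ j)
      (fun π => π.2 ^ p ^ j) (p := p) (R := p - 3) (by omega) hRF (by
        intro r hr η
        have h4 := relS hp hq hj (r := r) (by omega) hYcard hNZ η
        rw [sum_product, ← h4]
        refine sum_congr rfl fun a _ => sum_congr rfl fun b _ => ?_
        ring) (i := i) (k := k) (by omega) (by omega)
    rw [sum_product] at h3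
    rw [← h3]
    refine sum_congr rfl fun a _ => sum_congr rfl fun b _ => ?_
    ring

end Pool.Agent.L5helper34.OP
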