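import Pool.Agent.L5helper34.OP.RelE
set_option autoImplicit false
set_option linter.all false

namespace Pool.Agent.L5helper34.OP

open Finset Polynomial Pool.Agent.L5helper34.OC

variable {F : Type} [Field F] [DecidableEq F]

/-- powers of a function up to `N`, hence all polynomials of degree at most `N` in it -/
lemma linY_poly (Y : Finset F) (α w : F → F) (N : ℕ) (h : ∀ k ≤ N, ∑ b ∈ Y, α b ^ k * w b = 0)
    (P : F[X]) (hP : P.natDegree ≤ N) : ∑ b ∈ Y, P.eval (α b) * w b = 0 := by
  have h1 : ∀ x : F, P.eval x = ∑ i ∈ range (N + 1), P.coeff i * x ^ i := fun x =>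
    eval_eq_sum_range' (Nat.lt_succ_of_le hP) x
  simp only [h1, sum_mul]
  rw [sum_comm]
  refine sum_eq_zero fun i hi => ?_
  have h2 := h i (Nat.lt_succ_iff.1 (mem_range.1 hi))
  calc ∑ b ∈ Y, P.coeff i * α b ^ i * w b = P.coeff i * ∑ b ∈ Y, α b ^ i * w b := by
        rw [mul_sum]; exact sum_congr rfl fun b _ => by ring
    _ = 0 := by rw [h2, mul_zero]

/-- a polynomial with many zeros has coefficients zero -/
lemma linY_coeff (S : Finset F) (N : ℕ) (c : ℕ → F) (hN : N < S.card)
    (h : ∀ z ∈ S, ∑ i ∈ range (N + 1), c i * z ^ i = 0) : ∀ i ≤ N, c i = 0 := by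
  intro i hi
  set P : F[X] := ∑ i ∈ range (N + 1), C (c i) * X ^ i with hP
  have hdeg : P.natDegree ≤ N := by
    refine natDegree_sum_le_of_forall_le _ _ fun i hi => ?_
    exact (natDegree_C_mul_X_pow_le _ _).trans (Nat.lt_succ_iff.1 (mem_range.1 hi))
  have h0 : P = 0 := by
    refine eq_zero_of_natDegree_lt_card_of_eval_eq_zero' P S (fun z hz => ?_) (by omega)
    rw [← h z hz, hP, eval_finset_sum]
    exact sum_congr rfl fun i _ => by rw [eval_mul, eval_C, eval_pow, eval_X]
  have h1 : P.coeff i = c i := by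
    rw [hP, finset_sum_coeff]
    simp only [coeff_C_mul, coeff_X_pow]
    rw [sum_eq_single i]
    · simp
    · intro j _ hj
      rw [if_neg (fun h => hj h.symm), mul_zero]
    · intro h
      exact absurd (mem_range.2 (Nat.lt_succ_of_le hi)) h
  rw [← h1, h0, coeff_zero]

variable [Fintype F]

theorem linY {p j l k : ℕ} [Fact p.Prime] [CharP F p] (hp : 5 ≤ p)
    (hq : Fintype.card F = p ^ (j + 1)) (hj : 1 ≤ j) (hl : l + 1 ≤ p) (hk : k + 2 * l + 1 ≤ 2 * p)
    {Y : Finset F} (hY : Y.card = (p - 1) * p ^ j + 3) {τ : F → F} (h : NZ τ Y) :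
    ∑ b ∈ Y, (b ^ p ^ j) ^ k * (τ b ^ p ^ j) ^ l / dP Y b = 0 := by
  have hpp : p.Prime := Fact.out
  haveI : ExpChar F p := ExpChar.prime hpp
  set m := p ^ j with hm
  have hm5 : 5 ≤ m := by
    calc 5 ≤ p ^ 1 := by rw [pow_one]; exact hp
      _ ≤ p ^ j := Nat.pow_le_pow_right (by omega) hj
  have hqm : Fintype.card F = p * m := by rw [hq, hm, pow_succ, mul_comm]
  have hpow : ∀ b : F, b ^ (p * m) = b := fun b => by rw [← hqm]; exact FiniteField.pow_card b
  -- the powers are different
  have hinj : Function.Injective (fun b : F => b ^ m) := by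
    intro a b hab
    have h1 : (a ^ m) ^ p = (b ^ m) ^ p := by
      have : a ^ m = b ^ m := hab
      rw [this]
    rw [← pow_mul, ← pow_mul, mul_comm m p, hpow, hpow] at h1
    exact h1
  obtain ⟨y, hy⟩ : ∃ y, y ∉ Y := by
    by_contra hcon
    push Not at hcon
    have h1 : Y = univ := by ext x; simp [hcon x]
    have h2 : Y.card = p * m := by rw [h1, card_univ, hqm]
    obtain ⟨p', rfl⟩ : ∃ p', p = p' + 1 := ⟨p - 1, by omega⟩
    rw [hY, Nat.add_sub_cancel, Nat.add_mul, one_mul] at h2
    omega
  induction l using Nat.strong_induction_on generalizing k with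
  | _ l ih =>
  rcases Nat.eq_zero_or_pos l with rfl | hl0
  · -- `l = 0`
    have key : ∃ e k' : ℕ, e ≤ 1 ∧ k' + 1 ≤ p ∧ k = p * e + k' := by
      by_cases hkp : k < p
      · exact ⟨0, k, by omega, by omega, by omega⟩
      · exact ⟨1, k - p, le_refl _, by omega, by omega⟩
    obtain ⟨e, k', he, hk', rfl⟩ := key
    have h1 := sum_zero Y (X ^ (e + m * k') : F[X]) (by
      rw [natDegree_X_pow, hY]
      have : m * k' ≤ m * (p - 1) := Nat.mul_le_mul_left _ (by omega)
      rw [mul_comm m (p - 1)] at this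
      omega)
    rw [← h1]
    refine sum_congr rfl fun b _ => ?_
    rw [pow_zero, mul_one, eval_pow, eval_X, pow_add, pow_mul (b ^ m) p e, ← pow_mul b m p,
      mul_comm m p, hpow, pow_add, pow_mul]
  -- `l ≥ 1`
  set η := y ^ m with hη
  set α : F → F := fun b => b ^ m with hα
  set t : F → F := fun b => τ b ^ m with ht
  -- step 1
  have s1 : ∀ r, l + r + 1 ≤ p → ∀ a ∈ Y, ∑ b ∈ Y, (α b - α a) ^ (p - l) * (η - α b) ^ r * t b ^ l /
      dP Y b = 0 := by
    intro r hr a ha
    have hE := relE hq hr hY h hy ha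
    rw [← hm] at hE
    have hηa : η - α a ≠ 0 := by
      rw [sub_ne_zero]
      intro h1
      exact hy (hinj h1 ▸ ha)
    have hexp : ∀ b, (b ^ m - a ^ m) ^ (p - l) * (y ^ m - b ^ m) ^ r *
        ((y ^ m - b ^ m) * τ a ^ m - (y ^ m - a ^ m) * τ b ^ m) ^ l / dP Y b =
        ∑ u ∈ range (l + 1), ((-(η - α a)) ^ u * t a ^ (l - u) * (l.choose u : F)) *
          (((X - C (α a)) ^ (p - l) * (C η - X) ^ (r + (l - u)) : F[X]).eval (α b) *
            (t b ^ u / dP Y b)) := by
      intro b
      have e1 : (y ^ m - b ^ m) * τ a ^ m - (y ^ m - a ^ m) * τ b ^ m =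
          (-(η - α a)) * t b + (η - α b) * t a := by
        simp only [hη, hα, ht]; ring
      rw [e1, add_pow, mul_sum, sum_div]
      refine sum_congr rfl fun u hu => ?_
      simp only [eval_mul, eval_pow, eval_sub, eval_X, eval_C]
      have e2 : (η - α b) ^ (r + (l - u)) = (η - α b) ^ r * (η - α b) ^ (l - u) := pow_add _ _ _
      rw [e2, mul_pow, mul_pow]
      simp only [hη, hα, ht]
      ring
    simp only [hexp] at hE
    rw [sum_comm, sum_range_succ] at hE
    rw [sum_eq_zero, zero_add] at hE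
    · rw [← mul_sum, Nat.sub_self, pow_zero, mul_one, Nat.choose_self, Nat.cast_one, mul_one,
        add_zero] at hE
      have h2 := (mul_eq_zero.1 hE).resolve_left (pow_ne_zero _ (neg_ne_zero.2 hηa))
      rw [← h2]
      refine sum_congr rfl fun b _ => ?_
      simp only [eval_mul, eval_pow, eval_sub, eval_X, eval_C]
      ring
    · intro u hu
      rw [mem_range] at hu
      rw [← mul_sum]
      rw [linY_poly Y α (fun b => t b ^ u / dP Y b) (p - l + (r + (l - u))) ?_ _ ?_, mul_zero]
      · intro k' hk'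
        rw [← ih u hu (k := k') (by omega) (by omega)]
        exact sum_congr rfl fun b _ => by simp only [hα, ht]; ring
      · refine natDegree_mul_le.trans (Nat.add_le_add ?_ ?_)
        · refine natDegree_pow_le.trans ?_
          rw [natDegree_X_sub_C, mul_one]
        · refine natDegree_pow_le.trans ?_
          have : (C η - X : F[X]).natDegree ≤ 1 := by
            refine (natDegree_sub_le _ _).trans ?_
            rw [natDegree_C, natDegree_X]
            simp
          calc (r + (l - u)) * (C η - X : F[X]).natDegree ≤ (r + (l - u)) * 1 :=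
                Nat.mul_le_mul_left _ this
            _ = _ := mul_one _
  -- step 2
  have s2 : ∀ r, l + r + 1 ≤ p → ∀ i ≤ p - l, ∑ b ∈ Y, α b ^ i * (η - α b) ^ r * t b ^ l /
      dP Y b = 0 := by
    intro r hr i hi
    have h1 := linY_coeff (Y.image α) (p - l)
      (fun i => (-1) ^ i * ((p - l).choose i : F) *
        ∑ b ∈ Y, α b ^ (p - l - i) * (η - α b) ^ r * t b ^ l / dP Y b) (by
      rw [card_image_of_injective _ hinj, hY]
      have : p - l ≤ p - 1 := by omega
      have h2 : (p - 1) * 1 ≤ (p - 1) * m := Nat.mul_le_mul_left _ (by omega)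
      omega) (by
      intro z hz
      obtain ⟨a, ha, rfl⟩ := mem_image.1 hz
      rw [← s1 r hr a ha]
      simp only [mul_assoc, mul_sum, sum_mul]
      rw [sum_comm]
      refine sum_congr rfl fun b _ => ?_
      have e1 : α b - α a = -α a + α b := by ring
      rw [e1, add_pow, sum_mul, sum_div]
      refine sum_congr rfl fun i _ => ?_
      rw [neg_pow]
      ring) (p - l - i) (Nat.sub_le _ _)
    rw [show p - l - (p - l - i) = i by omega] at h1
    have h2 : ((p - l).choose (p - l - i) : F) ≠ 0 := by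
      intro h3
      rw [CharP.cast_eq_zero_iff F p] at h3
      have h5 := Nat.choose_mul_factorial_mul_factorial (Nat.sub_le (p - l) i)
      have h4 := (hpp.dvd_factorial).1 ((h3.trans (Dvd.intro _ rfl)).trans (h5 ▸ Dvd.intro _ rfl))
      omega
    rcases mul_eq_zero.1 h1 with h3 | h3
    · rcases mul_eq_zero.1 h3 with h4 | h4
      · exact absurd h4 (pow_ne_zero _ (neg_ne_zero.2 one_ne_zero))
      · exact absurd h4 h2
    · exact h3
  -- step 3
  have s3 : ∀ r, l + r + 1 ≤ p → ∀ i ≤ p - l, ∑ b ∈ Y, α b ^ (i + r) * t b ^ l / dP Y b = 0 := by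
    intro r
    induction r using Nat.strong_induction_on with
    | _ r ihr =>
    intro hr i hi
    have h1 := s2 r hr i hi
    have h2 : ∀ b, α b ^ i * (η - α b) ^ r * t b ^ l / dP Y b =
        ∑ u ∈ range (r + 1), ((-1) ^ u * η ^ (r - u) * (r.choose u : F)) *
          (α b ^ (i + u) * t b ^ l / dP Y b) := by
      intro b
      have e1 : η - α b = -α b + η := by ring
      rw [e1, add_pow, mul_sum, sum_mul, sum_div]
      refine sum_congr rfl fun u _ => ?_
      rw [neg_pow, pow_add]
      ring
    simp only [h2] at h1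
    rw [sum_comm, sum_range_succ, sum_eq_zero, zero_add, ← mul_sum] at h1
    · rw [Nat.sub_self, pow_zero, mul_one, Nat.choose_self, Nat.cast_one, mul_one] at h1
      exact (mul_eq_zero.1 h1).resolve_left (pow_ne_zero _ (neg_ne_zero.2 one_ne_zero))
    · intro u hu
      rw [mem_range] at hu
      rw [← mul_sum, ihr u hu (by omega) i hi, mul_zero]
  by_cases hkl : k ≤ p - l
  · have h1 := s3 0 (by omega) k hkl
    simpa [hα, ht] using h1
  · have h1 := s3 (k - (p - l)) (by omega) (p - l) le_rfl
    rw [show p - l + (k - (p - l)) = k by omega] at h1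
    exact h1

end Pool.Agent.L5helper34.OP
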