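import Pool.Agent.L5helper34.OC.Core
/-! OP J1: the basic relation for all `p` (helper75 for helper34). -/

set_option autoImplicit false
set_option linter.all false

namespace Pool.Agent.L5helper34.OP

open Finset Polynomial Pool.Agent.L5helper34.OC

variable {F : Type} [Field F] [DecidableEq F]

section Ext

variable {E : Type} [Field E]

lemma relA_rpow {p : ℕ} [Fact p.Prime] [CharP E p] (j : ℕ) {a b y ta tb v : E} (h1 : b - a ≠ 0)
    (h2 : y - a ≠ 0) (h3 : y - b ≠ 0) :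
    (ta / ((a - y) * (a - b)) + v / ((y - a) * (y - b)) + tb / ((b - a) * (b - y))) ^ (p ^ j) *
      ((b ^ (p ^ j) - a ^ (p ^ j)) * (y ^ (p ^ j) - a ^ (p ^ j)) * (y ^ (p ^ j) - b ^ (p ^ j))) =
    (y ^ (p ^ j) - b ^ (p ^ j)) * ta ^ (p ^ j) + (b ^ (p ^ j) - a ^ (p ^ j)) * v ^ (p ^ j) -
      (y ^ (p ^ j) - a ^ (p ^ j)) * tb ^ (p ^ j) := by
  haveI : ExpChar E p := ExpChar.prime Fact.out
  have e1 : (ta / ((a - y) * (a - b)) + v / ((y - a) * (y - b)) + tb / ((b - a) * (b - y))) *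
      ((b - a) * (y - a) * (y - b)) = (y - b) * ta + (b - a) * v - (y - a) * tb := by
    have h1' : a - b ≠ 0 := fun h => h1 (by linear_combination -h)
    have h2' : a - y ≠ 0 := fun h => h2 (by linear_combination -h)
    have h3' : b - y ≠ 0 := fun h => h3 (by linear_combination -h)
    field_simp
    ring
  rw [← sub_pow_char_pow, ← sub_pow_char_pow, ← sub_pow_char_pow, ← mul_pow, ← mul_pow, ← mul_pow,
    ← mul_pow, ← mul_pow, ← mul_pow, e1, sub_pow_char_pow, add_pow_char_pow]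

variable [Fintype F]

lemma relA_pow_q {p j : ℕ} (hq : Fintype.card F = p ^ (j + 1)) (x : F) :
    (x ^ (p ^ j)) ^ p = x := by
  rw [← pow_mul, ← pow_succ, ← hq, FiniteField.pow_card]

/-- the weights -/
def relA_W (p m P i : ℕ) (Y : Finset F) (y a b : F) : F :=
  (b ^ m - a ^ m) ^ (p - i) * ((y ^ m - a ^ m) * (y ^ m - b ^ m)) ^ (P - i) / (dP Y a * dP Y b)

variable (ι : F →+* E) (τ : F → F) (y : F) (v : E)

lemma relA_term {p j P i : ℕ} [Fact p.Prime] [CharP F p] [CharP E p]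
    (hq : Fintype.card F = p ^ (j + 1)) (hP : P + 1 ≤ p) (hi : i ≤ P) {Y : Finset F}
    (hY : Y.card = P * p ^ j + 3) (h : NZ τ Y) (hy : y ∉ Y) (hv : ∏ c : F, (v - ι c) ≠ 0) {a b : F}
    (ha : a ∈ Y) (hb : b ∈ Y) (hab : a ≠ b) :
    nd ι τ y v a b ^ (p ^ j * i) / ∏ z ∈ (Y.erase a).erase b, (nd ι τ y v a b - nd ι τ y v a z) =
      (ι (∏ z ∈ Y, (y - z)) / ∏ c : F, (v - ι c)) * ι (dP Y a) *
        (ι (relA_W p (p ^ j) P i Y y a b) * (∏ c ∈ univ \ Im τ y Y a b, (v - ι c)) *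
          (ι ((y ^ (p ^ j) - b ^ (p ^ j)) * τ a ^ (p ^ j)) + ι (b ^ (p ^ j) - a ^ (p ^ j)) * v ^ (p ^ j)
            - ι ((y ^ (p ^ j) - a ^ (p ^ j)) * τ b ^ (p ^ j))) ^ i) := by
  haveI : ExpChar E p := ExpChar.prime Fact.out
  have ne : ∀ {x : F}, x ∈ Y → y ≠ x := fun {x} hx e => hy (e ▸ hx)
  have k : ∀ {x w : F}, x ≠ w → ι x - ι w ≠ 0 := fun {x w} h => by
    rw [← map_sub]; exact (map_ne_zero ι).2 (sub_ne_zero.2 h)
  have kya := k (ne ha)
  have kyb := k (ne hb)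
  have kba := k hab.symm
  have hcard : ((Y.erase a).erase b).card = p ^ j * P + 1 := by
    rw [card_erase_of_mem (mem_erase.2 ⟨hab.symm, hb⟩), card_erase_of_mem ha, hY, mul_comm (p ^ j)]
    omega
  -- the product of the differences
  have hprod : ∏ z ∈ (Y.erase a).erase b, (nd ι τ y v a b - nd ι τ y v a z) =
      (∏ z ∈ (Y.erase a).erase b, (ι b - ι z)) * (∏ c ∈ Im τ y Y a b, (v - ι c)) /
        (((ι y - ι a) * (ι y - ι b)) ^ (p ^ j * P + 1) * ∏ z ∈ (Y.erase a).erase b, (ι y - ι z)) := by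
    have e1 : ∀ z ∈ (Y.erase a).erase b, nd ι τ y v a b - nd ι τ y v a z =
        ((ι b - ι z) * (v - ι (ipl τ y a b z))) / ((ι y - ι a) * (ι y - ι b) * (ι y - ι z)) := by
      intro z hz
      rw [mem_erase, mem_erase] at hz
      exact nd_sub ι τ y v hab hz.2.1.symm hz.1.symm (ne ha) (ne hb) (ne hz.2.2)
    rw [prod_congr rfl e1, prod_div_distrib, prod_mul_distrib, prod_mul_distrib, prod_const, hcard,
      Im, prod_image (ipl_injOn h hy ha hb hab)]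
  have hA : ι (dP Y b) = (ι b - ι a) * ∏ z ∈ (Y.erase a).erase b, (ι b - ι z) := by
    rw [erase_right_comm, dP, ← mul_prod_erase _ _ (mem_erase.2 ⟨hab, ha⟩), map_mul, map_sub, map_prod]
    simp only [map_sub]
  have hB : (∏ c ∈ Im τ y Y a b, (v - ι c)) * (∏ c ∈ univ \ Im τ y Y a b, (v - ι c)) =
      ∏ c : F, (v - ι c) := by
    rw [mul_comm]
    exact prod_sdiff (subset_univ _)
  have hD : ι (∏ z ∈ Y, (y - z)) =
      (ι y - ι a) * ((ι y - ι b) * ∏ z ∈ (Y.erase a).erase b, (ι y - ι z)) := by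
    rw [← mul_prod_erase _ _ ha, ← mul_prod_erase _ _ (mem_erase.2 ⟨hab.symm, hb⟩), map_mul, map_mul,
      map_sub, map_sub, map_prod]
    simp only [map_sub]
  have h3 : ι b - ι a = (ι b ^ (p ^ j) - ι a ^ (p ^ j)) ^ p := by
    have e : ((b ^ (p ^ j) - a ^ (p ^ j)) ^ p : F) = b - a := by
      haveI : ExpChar F p := ExpChar.prime Fact.out
      rw [← sub_pow_char_pow, relA_pow_q hq]
    have e' := congrArg ι e
    rw [map_pow, map_sub, map_pow, map_pow, map_sub] at e'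
    exact e'.symm
  have rp := relA_rpow (p := p) j (a := ι a) (b := ι b) (y := ι y) (ta := ι (τ a)) (tb := ι (τ b))
    (v := v) kba kya kyb
  have hnd : nd ι τ y v a b = ι (τ a) / ((ι a - ι y) * (ι a - ι b)) + v / ((ι y - ι a) * (ι y - ι b)) +
    ι (τ b) / ((ι b - ι a) * (ι b - ι y)) := rfl
  rw [← hnd] at rp
  have hS : ι (relA_W p (p ^ j) P i Y y a b) = (ι b ^ (p ^ j) - ι a ^ (p ^ j)) ^ (p - i) *
      ((ι y ^ (p ^ j) - ι a ^ (p ^ j)) * (ι y ^ (p ^ j) - ι b ^ (p ^ j))) ^ (P - i) /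
      (ι (dP Y a) * ι (dP Y b)) := by
    rw [relA_W, map_div₀, map_mul, map_mul, map_pow, map_pow, map_mul, map_sub, map_sub, map_sub,
      map_pow, map_pow, map_pow]
  have hA0 : ∏ z ∈ (Y.erase a).erase b, (ι b - ι z) ≠ 0 :=
    prod_ne_zero_iff.2 fun z hz => k (ne_of_mem_erase hz).symm
  have hD0 : ∏ z ∈ (Y.erase a).erase b, (ι y - ι z) ≠ 0 :=
    prod_ne_zero_iff.2 fun z hz => k (ne (mem_of_mem_erase (mem_of_mem_erase hz)))
  have hn0 : ∏ c ∈ Im τ y Y a b, (v - ι c) ≠ 0 := prod_ne_zero_iff.2 fun c _ => v_ne ι v hv c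
  have ht0 : ∏ c ∈ univ \ Im τ y Y a b, (v - ι c) ≠ 0 :=
    prod_ne_zero_iff.2 fun c _ => v_ne ι v hv c
  have hda : ι (dP Y a) ≠ 0 := (map_ne_zero ι).2 (dP_ne a)
  have hp1 : (ι y - ι a) ^ (p ^ j) = ι y ^ (p ^ j) - ι a ^ (p ^ j) := sub_pow_char_pow _ _ _
  have hp2 : (ι y - ι b) ^ (p ^ j) = ι y ^ (p ^ j) - ι b ^ (p ^ j) := sub_pow_char_pow _ _ _
  have hp1' : ι y ^ (p ^ j) - ι a ^ (p ^ j) ≠ 0 := hp1 ▸ pow_ne_zero _ kya
  have hp2' : ι y ^ (p ^ j) - ι b ^ (p ^ j) ≠ 0 := hp2 ▸ pow_ne_zero _ kyb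
  have hp0 : p ≠ 0 := by omega
  have hbet : ι b ^ (p ^ j) - ι a ^ (p ^ j) ≠ 0 := fun e => kba (by rw [h3, e, zero_pow hp0])
  have hpw : ((ι y - ι a) * (ι y - ι b)) ^ (p ^ j * P + 1) =
      ((ι y ^ (p ^ j) - ι a ^ (p ^ j)) * (ι y ^ (p ^ j) - ι b ^ (p ^ j))) ^ P *
        ((ι y - ι a) * (ι y - ι b)) := by
    rw [pow_succ, pow_mul, mul_pow, hp1, hp2]
  rw [hprod, hS, hA, ← hB, hD, hpw, pow_mul]
  simp only [map_mul, map_sub, map_pow]
  rw [← rp, h3]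
  generalize ι b ^ (p ^ j) - ι a ^ (p ^ j) = β at *
  generalize ι y ^ (p ^ j) - ι a ^ (p ^ j) = p1 at *
  generalize ι y ^ (p ^ j) - ι b ^ (p ^ j) = p2 at *
  generalize nd ι τ y v a b ^ (p ^ j) = N at *
  generalize ∏ z ∈ (Y.erase a).erase b, (ι b - ι z) = PA at *
  generalize ∏ z ∈ (Y.erase a).erase b, (ι y - ι z) = PD at *
  generalize ∏ c ∈ Im τ y Y a b, (v - ι c) = PN at *
  generalize ∏ c ∈ univ \ Im τ y Y a b, (v - ι c) = PT at *
  generalize ι (dP Y a) = DA at *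
  generalize ι y - ι a = ya at *
  generalize ι y - ι b = yb at *
  clear hprod hA hB hD rp hS hnd hp1 hp2 hpw
  have e1 : β ^ (p - i) * β ^ i = β ^ p := pow_sub_mul_pow β (by omega)
  have e2 : (p1 * p2) ^ (P - i) * (p1 * p2) ^ i = (p1 * p2) ^ P := pow_sub_mul_pow _ hi
  have e3 : (N * (β * p1 * p2)) ^ i = N ^ i * (β ^ i * (p1 * p2) ^ i) := by
    rw [mul_pow, mul_assoc, mul_pow]
  have g1 : β ^ (p - i) ≠ 0 := pow_ne_zero _ hbet
  have g2 : β ^ i ≠ 0 := pow_ne_zero _ hbet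
  have g3 : (p1 * p2) ^ (P - i) ≠ 0 := pow_ne_zero _ (mul_ne_zero hp1' hp2')
  have g4 : (p1 * p2) ^ i ≠ 0 := pow_ne_zero _ (mul_ne_zero hp1' hp2')
  rw [e3, ← e1, ← e2]
  generalize β ^ (p - i) = Q1 at *
  generalize β ^ i = Q2 at *
  generalize (p1 * p2) ^ (P - i) = R1 at *
  generalize (p1 * p2) ^ i = R2 at *
  generalize N ^ i = Ni at *
  clear e1 e2 e3
  field_simp

/-- the relation over the extension -/
lemma relA_ext {p j P i : ℕ} [Fact p.Prime] [CharP F p] [CharP E p]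
    (hq : Fintype.card F = p ^ (j + 1)) (hP : P + 1 ≤ p) (hi : i ≤ P) {Y : Finset F}
    (hY : Y.card = P * p ^ j + 3) (h : NZ τ Y) (hy : y ∉ Y) (hv : ∏ c : F, (v - ι c) ≠ 0) {a : F}
    (ha : a ∈ Y) :
    ∑ b ∈ Y.erase a, (ι (relA_W p (p ^ j) P i Y y a b) * (∏ c ∈ univ \ Im τ y Y a b, (v - ι c)) *
          (ι ((y ^ (p ^ j) - b ^ (p ^ j)) * τ a ^ (p ^ j)) + ι (b ^ (p ^ j) - a ^ (p ^ j)) * v ^ (p ^ j)
            - ι ((y ^ (p ^ j) - a ^ (p ^ j)) * τ b ^ (p ^ j))) ^ i) = 0 := by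
  have hle : p ^ j * i ≤ p ^ j * P := Nat.mul_le_mul_left _ hi
  have h1 := lagrange (Y.erase a) (nd ι τ y v a) (nd_injOn ι τ y v hy hv ha) (p ^ j * i)
    (by rw [card_erase_of_mem ha, hY, mul_comm P]; omega)
  have ne : ∀ {x : F}, x ∈ Y → y ≠ x := fun {x} hx e => hy (e ▸ hx)
  have h2 : ∀ b ∈ Y.erase a, nd ι τ y v a b ^ (p ^ j * i) /
      ∏ z ∈ (Y.erase a).erase b, (nd ι τ y v a b - nd ι τ y v a z) = _ := fun b hb =>
    relA_term ι τ y v hq hP hi hY h hy hv ha (mem_of_mem_erase hb) (ne_of_mem_erase hb).symm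
  rw [sum_congr rfl h2, ← mul_sum] at h1
  refine (mul_eq_zero.1 h1).resolve_left (mul_ne_zero (div_ne_zero ?_ hv) ?_)
  · exact (map_ne_zero ι).2 (prod_ne_zero_iff.2 fun z hz => sub_ne_zero.2 (ne hz))
  · exact (map_ne_zero ι).2 (dP_ne a)

end Ext

variable [Fintype F]

/-- the basic relation; `|Y| = P m + 3` -/
theorem relA {p j P i : ℕ} [Fact p.Prime] [CharP F p] (hq : Fintype.card F = p ^ (j + 1))
    (hP : P + 1 ≤ p) (hi : i ≤ P) {Y : Finset F} (hY : Y.card = P * p ^ j + 3) {τ : F → F} {y : F}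
    (h : NZ τ Y) (hy : y ∉ Y) {a : F} (ha : a ∈ Y) :
    ∑ b ∈ Y.erase a, C ((b ^ p ^ j - a ^ p ^ j) ^ (p - i) *
        ((y ^ p ^ j - a ^ p ^ j) * (y ^ p ^ j - b ^ p ^ j)) ^ (P - i) / (dP Y a * dP Y b)) *
      tp τ y Y a b *
      (C ((y ^ p ^ j - b ^ p ^ j) * τ a ^ p ^ j - (y ^ p ^ j - a ^ p ^ j) * τ b ^ p ^ j) +
        C (b ^ p ^ j - a ^ p ^ j) * X ^ p ^ j) ^ i = 0 := by
  have hinj : Function.Injective (algebraMap F[X] (FractionRing F[X])) :=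
    IsFractionRing.injective F[X] (FractionRing F[X])
  let ι : F →+* FractionRing F[X] := (algebraMap F[X] (FractionRing F[X])).comp C
  haveI : CharP (FractionRing F[X]) p := (RingHom.charP_iff ι ι.injective p).1 inferInstance
  have hv : ∏ c : F, (algebraMap F[X] (FractionRing F[X]) X - ι c) ≠ 0 := by
    refine prod_ne_zero_iff.2 fun c _ => ?_
    have e : algebraMap F[X] (FractionRing F[X]) X - ι c =
        algebraMap F[X] (FractionRing F[X]) (X - C c) := by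
      rw [map_sub]; rfl
    rw [e]
    exact (map_ne_zero_iff _ hinj).2 (X_sub_C_ne_zero c)
  have h1 := relA_ext ι τ y (algebraMap F[X] (FractionRing F[X]) X) hq hP hi hY h hy hv ha
  refine hinj ?_
  rw [map_zero, ← h1, map_sum]
  refine sum_congr rfl fun b _ => ?_
  have eι : ∀ x, ι x = algebraMap F[X] (FractionRing F[X]) (C x) := fun _ => rfl
  have e2 : (C ((y ^ p ^ j - b ^ p ^ j) * τ a ^ p ^ j - (y ^ p ^ j - a ^ p ^ j) * τ b ^ p ^ j) +
        C (b ^ p ^ j - a ^ p ^ j) * X ^ p ^ j : F[X]) =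
      C ((y ^ p ^ j - b ^ p ^ j) * τ a ^ p ^ j) + C (b ^ p ^ j - a ^ p ^ j) * X ^ p ^ j -
        C ((y ^ p ^ j - a ^ p ^ j) * τ b ^ p ^ j) := by
    rw [C_sub]
    ring
  rw [e2]
  simp only [relA_W, tp, eι, map_mul, map_sub, map_add, map_pow, map_prod]

theorem tp_degP {p j P : ℕ} [Fact p.Prime] (hq : Fintype.card F = p ^ (j + 1)) (hP : P + 1 ≤ p)
    {Y : Finset F} (hY : Y.card = P * p ^ j + 3) {τ : F → F} {y : F} (h : NZ τ Y) (hy : y ∉ Y)
    {a b : F} (ha : a ∈ Y) (hb : b ∈ Y) (hab : a ≠ b) :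
    (tp τ y Y a b).natDegree + 1 = (p - P) * p ^ j := by
  have hcard : ((Y.erase a).erase b).card = P * p ^ j + 1 := by
    rw [card_erase_of_mem (mem_erase.2 ⟨hab.symm, hb⟩), card_erase_of_mem ha, hY]; omega
  have h1 : (Im τ y Y a b).card = P * p ^ j + 1 := by
    rw [Im, card_image_of_injOn (ipl_injOn h hy ha hb hab), hcard]
  unfold tp
  rw [natDegree_prod_of_monic _ _ fun c _ => monic_X_sub_C c]
  simp only [natDegree_X_sub_C, sum_const, smul_eq_mul, mul_one]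
  rw [card_sdiff_of_subset (subset_univ _), card_univ, hq, h1, pow_succ, Nat.sub_mul]
  have h2 : 1 ≤ p ^ j := Nat.one_le_pow _ _ (by omega)
  have h3 : (P + 1) * p ^ j ≤ p * p ^ j := Nat.mul_le_mul_right _ hP
  rw [add_mul, one_mul] at h3
  rw [mul_comm (p ^ j) p]
  omega

end Pool.Agent.L5helper34.OP
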