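import Pool.Agent.L5helper34.OP.RelA
set_option autoImplicit false
set_option linter.all false

namespace Pool.Agent.L5helper34.OP

open Finset Polynomial Pool.Agent.L5helper34.OC

variable {F : Type} [Field F] [DecidableEq F] [Fintype F]

omit [DecidableEq F] [Fintype F] in
lemma relE_coeff {T : F[X]} {m i l : ℕ} (hT : T.Monic) (hm : T.natDegree + 1 = m) (hl : l ≤ i) (c d : F) :
    (T * (C c + C d * X ^ m) ^ i).coeff (m - 1 + m * (i - l)) = (i.choose l : F) * (c ^ l * d ^ (i - l)) := by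
  rw [add_pow, mul_sum, finset_sum_coeff, sum_eq_single l]
  · have e : T * (C c ^ l * (C d * X ^ m) ^ (i - l) * ((i.choose l : ℕ) : F[X])) =
        C ((i.choose l : F) * (c ^ l * d ^ (i - l))) * (T * X ^ (m * (i - l))) := by
      rw [mul_pow, ← pow_mul, C_mul, C_mul, C_pow, C_pow, map_natCast]
      ring
    rw [e, coeff_C_mul, coeff_mul_X_pow]
    have h1 : T.coeff (m - 1) = 1 := by
      have h2 : m - 1 = T.natDegree := by omega
      rw [h2]
      exact hT.coeff_natDegree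
    rw [h1, mul_one]
  · intro u hu hne
    rw [mem_range] at hu
    have e : T * (C c ^ u * (C d * X ^ m) ^ (i - u) * ((i.choose u : ℕ) : F[X])) =
        C ((i.choose u : F) * (c ^ u * d ^ (i - u))) * (T * X ^ (m * (i - u))) := by
      rw [mul_pow, ← pow_mul, C_mul, C_mul, C_pow, C_pow, map_natCast]
      ring
    rw [e, coeff_C_mul, coeff_mul_X_pow']
    split_ifs with h3
    · rcases lt_or_gt_of_ne hne with h4 | h4
      · exfalso
        have h5 : i - l + 1 ≤ i - u := by omega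
        have h6 : m * (i - l + 1) ≤ m * (i - u) := Nat.mul_le_mul_left m h5
        rw [mul_add, mul_one] at h6
        omega
      · rw [coeff_eq_zero_of_natDegree_lt, mul_zero]
        have h5 : i - u + 1 ≤ i - l := by omega
        have h6 : m * (i - u + 1) ≤ m * (i - l) := Nat.mul_le_mul_left m h5
        rw [mul_add, mul_one] at h6
        omega
    · rw [mul_zero]
  · intro h
    exact absurd (mem_range.2 (by omega)) h

theorem relE {p j l r : ℕ} [Fact p.Prime] [CharP F p] (hq : Fintype.card F = p ^ (j + 1))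
    (hlr : l + r + 1 ≤ p) {Y : Finset F} (hY : Y.card = (p - 1) * p ^ j + 3) {τ : F → F} {y : F}
    (h : NZ τ Y) (hy : y ∉ Y) {a : F} (ha : a ∈ Y) :
    ∑ b ∈ Y, (b ^ p ^ j - a ^ p ^ j) ^ (p - l) * (y ^ p ^ j - b ^ p ^ j) ^ r *
      ((y ^ p ^ j - b ^ p ^ j) * τ a ^ p ^ j - (y ^ p ^ j - a ^ p ^ j) * τ b ^ p ^ j) ^ l /
      dP Y b = 0 := by
  have hp : p.Prime := Fact.out
  haveI : ExpChar F p := ExpChar.prime hp
  have hp2 := hp.two_le
  obtain ⟨i, hi⟩ : ∃ i, i = p - 1 - r := ⟨_, rfl⟩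
  have hil : l ≤ i := by omega
  have hm1 : 1 ≤ p ^ j := Nat.one_le_pow _ _ (by omega)
  have h1 := relA (P := p - 1) (i := i) hq (by omega) (by omega) hY h hy ha
  have hPi : p - 1 - i = r := by omega
  rw [hPi] at h1
  have h2 := congrArg (fun f : F[X] => f.coeff (p ^ j - 1 + p ^ j * (i - l))) h1
  simp only [finset_sum_coeff, coeff_zero, mul_assoc, coeff_C_mul] at h2
  have hch : ((i.choose l : ℕ) : F) ≠ 0 := by
    intro h0
    rw [CharP.cast_eq_zero_iff F p] at h0
    have h01 : p ∣ i.factorial := by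
      rw [← Nat.choose_mul_factorial_mul_factorial hil, mul_assoc]
      exact Dvd.dvd.mul_right h0 _
    have h02 := (hp.dvd_factorial).1 h01
    omega
  have hya : y ^ p ^ j - a ^ p ^ j ≠ 0 := by
    rw [← sub_pow_char_pow]
    exact pow_ne_zero _ (sub_ne_zero.2 fun e => hy (e ▸ ha))
  have hda : dP Y a ≠ 0 := dP_ne a
  have h3 : ∑ b ∈ Y.erase a, (b ^ p ^ j - a ^ p ^ j) ^ (p - l) * (y ^ p ^ j - b ^ p ^ j) ^ r *
      ((y ^ p ^ j - b ^ p ^ j) * τ a ^ p ^ j - (y ^ p ^ j - a ^ p ^ j) * τ b ^ p ^ j) ^ l /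
      dP Y b = 0 := by
    have h4 : ((i.choose l : ℕ) : F) * ((y ^ p ^ j - a ^ p ^ j) ^ r / dP Y a) *
      (∑ b ∈ Y.erase a, (b ^ p ^ j - a ^ p ^ j) ^ (p - l) * (y ^ p ^ j - b ^ p ^ j) ^ r *
      ((y ^ p ^ j - b ^ p ^ j) * τ a ^ p ^ j - (y ^ p ^ j - a ^ p ^ j) * τ b ^ p ^ j) ^ l /
      dP Y b) = 0 := by
      rw [← h2, mul_sum]
      refine sum_congr rfl fun b hb => ?_
      have hb1 := mem_of_mem_erase hb
      have hb2 := ne_of_mem_erase hb
      have hdeg := tp_degP (P := p - 1) hq (by omega) hY h hy ha hb1 hb2.symm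
      have hpp : p - (p - 1) = 1 := by omega
      rw [hpp, one_mul] at hdeg
      rw [relE_coeff (tp_monic τ y Y a b) hdeg hil]
      have e1 : p - l = (p - i) + (i - l) := by omega
      rw [e1, pow_add, mul_pow]
      have hdb : dP Y b ≠ 0 := dP_ne b
      field_simp
    rcases mul_eq_zero.1 h4 with h5 | h5
    · exact absurd h5 (mul_ne_zero hch (div_ne_zero (pow_ne_zero _ hya) hda))
    · exact h5
  rw [← add_sum_erase _ _ ha, h3, add_zero, sub_self, zero_pow (by omega), zero_mul, zero_mul, zero_div]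

end Pool.Agent.L5helper34.OP
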