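import Pool.Agent.L5helper34.OP.RelA
set_option autoImplicit false
set_option linter.all false

namespace Pool.Agent.L5helper34.OP

open Finset Polynomial Pool.Agent.L5helper34.OC

variable {F : Type} [Field F] [DecidableEq F]

/-- the functional `G ↦ ∑ coeff (m l + m - 1) t ^ l` -/
noncomputable def relR_La (m : ℕ) (t : F) : F[X] →ₗ[F] F :=
  Polynomial.lsum fun n => if n % m = m - 1 then t ^ (n / m) • LinearMap.id else 0

lemma relR_La_mono (m : ℕ) (t : F) (n : ℕ) (c : F) :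
    relR_La m t (monomial n c) = if n % m = m - 1 then t ^ (n / m) * c else 0 := by
  unfold relR_La
  rw [Polynomial.lsum_apply, Polynomial.sum_monomial_index _ _ (by simp)]
  split_ifs <;> simp

lemma relR_La_X {m : ℕ} (hm : 0 < m) (t : F) (G : F[X]) :
    relR_La m t (X ^ m * G) = t * relR_La m t G := by
  induction G using Polynomial.induction_on' with
  | add p q hp hq => rw [mul_add, map_add, hp, hq, map_add, mul_add]
  | monomial n c =>
    rw [X_pow_mul_monomial, relR_La_mono, relR_La_mono, Nat.add_mod_right, Nat.add_div_right _ hm]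
    split_ifs
    · rw [pow_succ]; ring
    · ring

lemma relR_La_C (m : ℕ) (t c : F) (G : F[X]) : relR_La m t (C c * G) = c * relR_La m t G := by
  rw [← smul_eq_C_mul, map_smul, smul_eq_mul]

lemma relR_La_pow {m : ℕ} (hm : 0 < m) (t u β : F) (i : ℕ) (G : F[X]) :
    relR_La m t (G * (C u + C β * X ^ m) ^ i) = (u + β * t) ^ i * relR_La m t G := by
  induction i generalizing G with
  | zero => simp
  | succ i ih =>
    have e : G * (C u + C β * X ^ m) ^ (i + 1) = (C u * G + C β * (X ^ m * G)) *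
        (C u + C β * X ^ m) ^ i := by ring
    rw [e, ih, map_add, relR_La_C, relR_La_C, relR_La_X hm, pow_succ]
    ring

lemma relR_La_monic {m : ℕ} (hm : 0 < m) (t : F) {G : F[X]} (hG : G.Monic)
    (hd : G.natDegree + 1 = 2 * m) : relR_La m t G = G.coeff (m - 1) + t := by
  unfold relR_La
  rw [Polynomial.lsum_apply, Polynomial.sum_over_range' _ (n := m + m) (by intro n; simp) (by omega),
    Finset.sum_range_add]
  have h1 : ∀ n ∈ range m, (if n % m = m - 1 then t ^ (n / m) • LinearMap.id else 0 :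
      F →ₗ[F] F) (G.coeff n) = if n = m - 1 then G.coeff n else 0 := by
    intro n hn
    rw [mem_range] at hn
    rw [Nat.mod_eq_of_lt hn, Nat.div_eq_of_lt hn]
    split_ifs <;> simp
  have h2 : ∀ n ∈ range m, (if (m + n) % m = m - 1 then t ^ ((m + n) / m) • LinearMap.id else 0 :
      F →ₗ[F] F) (G.coeff (m + n)) = if n = m - 1 then t * G.coeff (m + n) else 0 := by
    intro n hn
    rw [mem_range] at hn
    rw [Nat.add_mod_left, Nat.mod_eq_of_lt hn, Nat.add_div_left _ hm, Nat.div_eq_of_lt hn]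
    split_ifs <;> simp
  rw [sum_congr rfl h1, sum_congr rfl h2, sum_ite_eq', sum_ite_eq', if_pos (mem_range.2 (by omega)),
    if_pos (mem_range.2 (by omega))]
  have h3 := hG.coeff_natDegree
  rw [show G.natDegree = m + (m - 1) by omega] at h3
  rw [h3, mul_one]

variable [Fintype F]

theorem relR {p j i : ℕ} [Fact p.Prime] [CharP F p] (hp : 5 ≤ p)
    (hq : Fintype.card F = p ^ (j + 1)) (hi : i + 2 ≤ p) {Y : Finset F}
    (hY : Y.card = (p - 2) * p ^ j + 3) {τ : F → F} {y : F} (h : NZ τ Y) (hy : y ∉ Y) :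
    ∑ a ∈ Y, ∑ b ∈ Y, (a ^ p ^ j - b ^ p ^ j) ^ (p - i) *
      (τ a ^ p ^ j - τ b ^ p ^ j) ^ (i + 1) *
      ((y ^ p ^ j - a ^ p ^ j) * (y ^ p ^ j - b ^ p ^ j)) ^ (p - 2 - i) /
      (dP Y a * dP Y b) = 0 := by
  have hpp : p.Prime := Fact.out
  haveI : ExpChar F p := ExpChar.prime hpp
  have hm0 : 0 < p ^ j := Nat.pow_pos hpp.pos
  have hodd : Odd p := hpp.odd_of_ne_two (by omega)
  have h2 : (2 : F) ≠ 0 := by
    intro h0
    have h1 : ((2 : ℕ) : F) = 0 := by exact_mod_cast h0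
    rw [CharP.cast_eq_zero_iff F p] at h1
    have := Nat.le_of_dvd (by norm_num) h1
    omega
  set m := p ^ j with hm
  have hya : ∀ a ∈ Y, y ^ m - a ^ m ≠ 0 := fun a ha e => by
    rw [hm, ← sub_pow_char_pow] at e
    exact hy (by rw [sub_eq_zero.1 (pow_eq_zero_iff (by omega) |>.1 e)]; exact ha)
  -- the coefficients
  let w : F → F → F := fun a b => (b ^ m - a ^ m) ^ (p - i) *
    ((y ^ m - a ^ m) * (y ^ m - b ^ m)) ^ (p - 2 - i) / (dP Y a * dP Y b)
  have key : ∀ a ∈ Y, ∑ b ∈ Y.erase a, w a b * (τ a ^ m - τ b ^ m) ^ i *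
      ((tp τ y Y a b).coeff (m - 1) + τ a ^ m) = 0 := by
    intro a ha
    have h1 := relA (i := i) hq (P := p - 2) (by omega) (by omega) hY h hy ha
    have h3 := congrArg (relR_La m (τ a ^ m)) h1
    rw [map_sum, map_zero] at h3
    have h4 : ∀ b ∈ Y.erase a, relR_La m (τ a ^ m)
        (C ((b ^ p ^ j - a ^ p ^ j) ^ (p - i) *
        ((y ^ p ^ j - a ^ p ^ j) * (y ^ p ^ j - b ^ p ^ j)) ^ (p - 2 - i) / (dP Y a * dP Y b)) *
      tp τ y Y a b *
      (C ((y ^ p ^ j - b ^ p ^ j) * τ a ^ p ^ j - (y ^ p ^ j - a ^ p ^ j) * τ b ^ p ^ j) +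
        C (b ^ p ^ j - a ^ p ^ j) * X ^ p ^ j) ^ i) =
        (y ^ m - a ^ m) ^ i * (w a b * (τ a ^ m - τ b ^ m) ^ i *
          ((tp τ y Y a b).coeff (m - 1) + τ a ^ m)) := by
      intro b hb
      have hdeg := tp_degP hq (P := p - 2) (by omega) hY h hy ha (mem_of_mem_erase hb)
        (ne_of_mem_erase hb).symm
      rw [show p - (p - 2) = 2 by omega] at hdeg
      rw [relR_La_pow hm0, relR_La_C, relR_La_monic hm0 _ (tp_monic τ y Y a b) hdeg]
      show _ = (y ^ m - a ^ m) ^ i * (((b ^ m - a ^ m) ^ (p - i) *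
        ((y ^ m - a ^ m) * (y ^ m - b ^ m)) ^ (p - 2 - i) / (dP Y a * dP Y b)) *
          (τ a ^ m - τ b ^ m) ^ i * ((tp τ y Y a b).coeff (m - 1) + τ a ^ m))
      have e1 : (y ^ m - b ^ m) * τ a ^ m - (y ^ m - a ^ m) * τ b ^ m + (b ^ m - a ^ m) * τ a ^ m =
          (y ^ m - a ^ m) * (τ a ^ m - τ b ^ m) := by ring
      rw [← hm, e1, mul_pow]
      ring
    rw [sum_congr rfl h4, ← mul_sum] at h3
    exact (mul_eq_zero.1 h3).resolve_left (pow_ne_zero _ (hya a ha))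
  have anti : ∀ a b : F, w b a * (τ b ^ m - τ a ^ m) ^ i = - (w a b * (τ a ^ m - τ b ^ m) ^ i) := by
    intro a b
    have e1 : (a ^ m - b ^ m) ^ (p - i) * (τ b ^ m - τ a ^ m) ^ i =
        - ((b ^ m - a ^ m) ^ (p - i) * (τ a ^ m - τ b ^ m) ^ i) := by
      rw [show a ^ m - b ^ m = (-1) * (b ^ m - a ^ m) by ring,
        show τ b ^ m - τ a ^ m = (-1) * (τ a ^ m - τ b ^ m) by ring, mul_pow, mul_pow]
      have e2 : (-1 : F) ^ (p - i) * (-1) ^ i = -1 := by
        rw [← pow_add, Nat.sub_add_cancel (by omega)]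
        exact hodd.neg_one_pow
      linear_combination ((b ^ m - a ^ m) ^ (p - i) * (τ a ^ m - τ b ^ m) ^ i) * e2
    show (a ^ m - b ^ m) ^ (p - i) *
      ((y ^ m - b ^ m) * (y ^ m - a ^ m)) ^ (p - 2 - i) / (dP Y b * dP Y a) *
        (τ b ^ m - τ a ^ m) ^ i = - ((b ^ m - a ^ m) ^ (p - i) *
      ((y ^ m - a ^ m) * (y ^ m - b ^ m)) ^ (p - 2 - i) / (dP Y a * dP Y b) *
        (τ a ^ m - τ b ^ m) ^ i)
    rw [mul_comm (y ^ m - b ^ m), mul_comm (dP Y b)]
    rw [div_mul_eq_mul_div, div_mul_eq_mul_div, ← neg_div]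
    congr 1
    linear_combination ((y ^ m - a ^ m) * (y ^ m - b ^ m)) ^ (p - 2 - i) * e1
  -- swap of the two summation variables
  have swap : ∀ f : F → F → F, ∑ a ∈ Y, ∑ b ∈ Y.erase a, f a b =
      ∑ a ∈ Y, ∑ b ∈ Y.erase a, f b a := by
    intro f
    rw [sum_comm' (s' := fun b => Y.erase b) (t' := Y)]
    intro a b
    simp only [mem_erase]
    constructor
    · rintro ⟨h1, h2, h3⟩; exact ⟨⟨Ne.symm h2, h1⟩, h3⟩
    · rintro ⟨⟨h1, h2⟩, h3⟩; exact ⟨h2, Ne.symm h1, h3⟩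
  have he : ∑ a ∈ Y, ∑ b ∈ Y.erase a, w a b * (τ a ^ m - τ b ^ m) ^ i *
      (tp τ y Y a b).coeff (m - 1) = 0 := by
    have h1 := swap fun a b => w a b * (τ a ^ m - τ b ^ m) ^ i * (tp τ y Y a b).coeff (m - 1)
    have h3 : ∑ a ∈ Y, ∑ b ∈ Y.erase a, w b a * (τ b ^ m - τ a ^ m) ^ i *
        (tp τ y Y b a).coeff (m - 1) = - ∑ a ∈ Y, ∑ b ∈ Y.erase a,
          w a b * (τ a ^ m - τ b ^ m) ^ i * (tp τ y Y a b).coeff (m - 1) := by
      rw [← sum_neg_distrib]
      refine sum_congr rfl fun a _ => ?_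
      rw [← sum_neg_distrib]
      refine sum_congr rfl fun b _ => ?_
      rw [anti a b, tp_symm τ y Y b a]
      ring
    have h4 : (2 : F) * ∑ a ∈ Y, ∑ b ∈ Y.erase a, w a b * (τ a ^ m - τ b ^ m) ^ i *
      (tp τ y Y a b).coeff (m - 1) = 0 := by
      linear_combination h1 + h3
    exact (mul_eq_zero.1 h4).resolve_left h2
  have ht : ∑ a ∈ Y, ∑ b ∈ Y.erase a, w a b * (τ a ^ m - τ b ^ m) ^ i * τ a ^ m = 0 := by
    have h1 : ∑ a ∈ Y, ∑ b ∈ Y.erase a, w a b * (τ a ^ m - τ b ^ m) ^ i *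
      ((tp τ y Y a b).coeff (m - 1) + τ a ^ m) = 0 := sum_eq_zero key
    simp only [mul_add, sum_add_distrib] at h1
    rw [he, zero_add] at h1
    exact h1
  have hfin : ∑ a ∈ Y, ∑ b ∈ Y.erase a, w a b * (τ a ^ m - τ b ^ m) ^ (i + 1) = 0 := by
    have h1 := swap fun a b => w a b * (τ a ^ m - τ b ^ m) ^ i * τ a ^ m
    have h3 : ∑ a ∈ Y, ∑ b ∈ Y.erase a, w b a * (τ b ^ m - τ a ^ m) ^ i * τ b ^ m =
        - ∑ a ∈ Y, ∑ b ∈ Y.erase a, w a b * (τ a ^ m - τ b ^ m) ^ i * τ b ^ m := by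
      rw [← sum_neg_distrib]
      refine sum_congr rfl fun a _ => ?_
      rw [← sum_neg_distrib]
      refine sum_congr rfl fun b _ => ?_
      rw [anti a b]
      ring
    have h4 : ∑ a ∈ Y, ∑ b ∈ Y.erase a, w a b * (τ a ^ m - τ b ^ m) ^ (i + 1) =
        ∑ a ∈ Y, ∑ b ∈ Y.erase a, w a b * (τ a ^ m - τ b ^ m) ^ i * τ a ^ m -
        ∑ a ∈ Y, ∑ b ∈ Y.erase a, w a b * (τ a ^ m - τ b ^ m) ^ i * τ b ^ m := by
      rw [← sum_sub_distrib]
      refine sum_congr rfl fun a _ => ?_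
      rw [← sum_sub_distrib]
      refine sum_congr rfl fun b _ => ?_
      rw [pow_succ]
      ring
    rw [h4]
    linear_combination 2 * ht - (h1 + h3)
  -- conclusion
  have hlast : ∑ a ∈ Y, ∑ b ∈ Y, (a ^ m - b ^ m) ^ (p - i) * (τ a ^ m - τ b ^ m) ^ (i + 1) *
      ((y ^ m - a ^ m) * (y ^ m - b ^ m)) ^ (p - 2 - i) / (dP Y a * dP Y b) =
      (-1) ^ (p - i) * ∑ a ∈ Y, ∑ b ∈ Y.erase a, w a b * (τ a ^ m - τ b ^ m) ^ (i + 1) := by
    rw [mul_sum]
    refine sum_congr rfl fun a ha => ?_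
    rw [← sum_erase_add _ _ ha, sub_self (τ a ^ m), zero_pow (Nat.succ_ne_zero i), mul_zero,
      zero_mul, zero_div, add_zero, mul_sum]
    refine sum_congr rfl fun b _ => ?_
    show _ = (-1) ^ (p - i) * ((b ^ m - a ^ m) ^ (p - i) *
      ((y ^ m - a ^ m) * (y ^ m - b ^ m)) ^ (p - 2 - i) / (dP Y a * dP Y b) *
        (τ a ^ m - τ b ^ m) ^ (i + 1))
    rw [show a ^ m - b ^ m = (-1) * (b ^ m - a ^ m) by ring, mul_pow]
    ring
  rw [hlast, hfin, mul_zero]

end Pool.Agent.L5helper34.OP
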