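import Pool.Agent.L5helper34.OP.RelR
/-! OP J3: relS -/

set_option autoImplicit false
set_option linter.all false

namespace Pool.Agent.L5helper34.OP

open Finset Polynomial Pool.Agent.L5helper34.OC

variable {F : Type} [Field F] [DecidableEq F]

lemma relS_dd3 (τ : F → F) (c : F) {a b x d : F} (hab : a ≠ b) (hac : a ≠ x) (had : a ≠ d)
    (hbc : b ≠ x) (hbd : b ≠ d) (hcd : x ≠ d) :
    dd3 (fun s => τ s + c * s) a b x d = dd3 τ a b x d := by
  have h1 := sub_ne_zero.2 hab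
  have h2 := sub_ne_zero.2 hac
  have h3 := sub_ne_zero.2 had
  have h4 := sub_ne_zero.2 hbc
  have h5 := sub_ne_zero.2 hbd
  have h6 := sub_ne_zero.2 hcd
  have h1' := sub_ne_zero.2 hab.symm
  have h2' := sub_ne_zero.2 hac.symm
  have h3' := sub_ne_zero.2 had.symm
  have h4' := sub_ne_zero.2 hbc.symm
  have h5' := sub_ne_zero.2 hbd.symm
  have h6' := sub_ne_zero.2 hcd.symm
  have key : a / ((a - b) * (a - x) * (a - d)) + b / ((b - a) * (b - x) * (b - d)) +
      x / ((x - a) * (x - b) * (x - d)) + d / ((d - a) * (d - b) * (d - x)) = 0 := by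
    field_simp
    ring
  unfold dd3
  linear_combination c * key

lemma relS_NZ {τ : F → F} {Y : Finset F} (h : NZ τ Y) (c : F) : NZ (fun s => τ s + c * s) Y := by
  intro a ha b hb x hx d hd hab hac had hbc hbd hcd
  rw [relS_dd3 τ c hab hac had hbc hbd hcd]
  exact h a ha b hb x hx d hd hab hac had hbc hbd hcd

omit [DecidableEq F] in
lemma relS_coeff (u v : F) (n k : ℕ) (hk : k ≤ n) :
    ((C v * X + C u : F[X]) ^ n).coeff k = v ^ k * u ^ (n - k) * (n.choose k : F) := by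
  rw [add_pow, finset_sum_coeff]
  have e : ∀ m ∈ range (n + 1), ((C v * X : F[X]) ^ m * (C u) ^ (n - m) * (n.choose m : F[X])).coeff k
      = if m = k then v ^ k * u ^ (n - k) * (n.choose k : F) else 0 := by
    intro m _
    have e1 : ((C v * X : F[X]) ^ m * (C u) ^ (n - m) * (n.choose m : F[X])) =
        C (v ^ m * u ^ (n - m) * (n.choose m : F)) * X ^ m := by
      rw [mul_pow, C_mul, C_mul, C_pow, C_pow, C_eq_natCast]
      ring
    rw [e1, coeff_C_mul_X_pow]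
    by_cases hkm : k = m
    · subst hkm; simp
    · rw [if_neg hkm, if_neg (Ne.symm hkm)]
  rw [sum_congr rfl e, sum_ite_eq', if_pos (mem_range.2 (by omega))]

omit [DecidableEq F] in
lemma relS_deg (u v : F) (n : ℕ) : ((C v * X + C u : F[X]) ^ n).natDegree ≤ n := by
  refine natDegree_pow_le.trans ?_
  have h1 : (C v * X + C u : F[X]).natDegree ≤ 1 := natDegree_linear_le
  calc n * (C v * X + C u : F[X]).natDegree ≤ n * 1 := Nat.mul_le_mul_left _ h1
    _ = n := mul_one n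

omit [DecidableEq F] in
lemma relS_choose {p i : ℕ} [Fact p.Prime] [CharP F p] (hi : i + 2 ≤ p) :
    (((i + 1).choose (i - 1) : ℕ) : F) ≠ 0 := by
  have hp : p.Prime := Fact.out
  intro h
  rw [CharP.cast_eq_zero_iff F p] at h
  have h1 : (i + 1).choose (i - 1) * (i - 1).factorial * (i + 1 - (i - 1)).factorial =
      (i + 1).factorial := Nat.choose_mul_factorial_mul_factorial (by omega)
  have h2 : p ∣ (i + 1).factorial := by
    rw [← h1, mul_assoc]
    exact Dvd.dvd.mul_right h _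
  have := (hp.dvd_factorial).1 h2
  omega

variable [Fintype F]

lemma relS_pow {p j : ℕ} (hq : Fintype.card F = p ^ (j + 1)) (x : F) : (x ^ p) ^ p ^ j = x := by
  rw [← pow_mul, ← pow_succ', ← hq, FiniteField.pow_card]

/-- the relation for one `y` -/
lemma relS_one {p j r : ℕ} [Fact p.Prime] [CharP F p] (hp : 5 ≤ p)
    (hq : Fintype.card F = p ^ (j + 1)) (hr : r + 3 ≤ p) {Y : Finset F}
    (hY : Y.card = (p - 2) * p ^ j + 3) {τ : F → F} (h : NZ τ Y) {y : F} (hy : y ∉ Y) :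
    ∑ a ∈ Y, ∑ b ∈ Y, (a ^ p ^ j - b ^ p ^ j) ^ (p - 1) *
      (τ a ^ p ^ j - τ b ^ p ^ j) ^ 2 *
      ((y ^ p ^ j - a ^ p ^ j) * (y ^ p ^ j - b ^ p ^ j)) ^ r /
      (dP Y a * dP Y b) = 0 := by
  haveI : ExpChar F p := ExpChar.prime Fact.out
  obtain ⟨i, hi⟩ : ∃ i, p = i + 2 + r := ⟨p - 2 - r, by omega⟩
  have hi1 : 1 ≤ i := by omega
  have hri : p - 2 - i = r := by omega
  set w : F → F → F := fun a b => (a ^ p ^ j - b ^ p ^ j) ^ (p - i) *
      ((y ^ p ^ j - a ^ p ^ j) * (y ^ p ^ j - b ^ p ^ j)) ^ r / (dP Y a * dP Y b) with hw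
  set R : F[X] := ∑ a ∈ Y, ∑ b ∈ Y, C (w a b) *
      (C (a ^ p ^ j - b ^ p ^ j) * X + C (τ a ^ p ^ j - τ b ^ p ^ j)) ^ (i + 1) with hR
  have hdeg : R.natDegree ≤ i + 1 := by
    rw [hR]
    refine natDegree_sum_le_of_forall_le _ _ fun a _ => ?_
    refine natDegree_sum_le_of_forall_le _ _ fun b _ => ?_
    exact (natDegree_C_mul_le _ _).trans (relS_deg _ _ _)
  have hev : ∀ x : F, R.eval x = 0 := by
    intro x
    have h1 := relR (p := p) (j := j) (i := i) hp hq (by omega) hY (relS_NZ h (x ^ p)) hy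
    rw [hri] at h1
    rw [hR, eval_finset_sum, ← h1]
    refine sum_congr rfl fun a _ => ?_
    rw [eval_finset_sum]
    refine sum_congr rfl fun b _ => ?_
    have e1 : ∀ s : F, (τ s + x ^ p * s) ^ p ^ j = τ s ^ p ^ j + x * s ^ p ^ j := by
      intro s
      rw [add_pow_char_pow, mul_pow, relS_pow hq]
    simp only [eval_mul, eval_pow, eval_add, eval_C, eval_X, e1, hw]
    have e2 : (a ^ p ^ j - b ^ p ^ j) * x + (τ a ^ p ^ j - τ b ^ p ^ j) =
        τ a ^ p ^ j + x * a ^ p ^ j - (τ b ^ p ^ j + x * b ^ p ^ j) := by ring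
    rw [e2]
    ring
  have hR0 : R = 0 := by
    refine eq_zero_of_natDegree_lt_card_of_eval_eq_zero' R univ (fun x _ => hev x) ?_
    rw [card_univ, hq, pow_succ]
    have : 1 ≤ p ^ j := Nat.one_le_pow _ _ (by omega)
    nlinarith
  have hc : R.coeff (i - 1) = 0 := by rw [hR0, coeff_zero]
  rw [hR, finset_sum_coeff] at hc
  have hch := relS_choose (F := F) (p := p) (i := i) (by omega)
  have e3 : ∑ a ∈ Y, (∑ b ∈ Y, C (w a b) *
      (C (a ^ p ^ j - b ^ p ^ j) * X + C (τ a ^ p ^ j - τ b ^ p ^ j)) ^ (i + 1)).coeff (i - 1) =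
      (((i + 1).choose (i - 1) : ℕ) : F) * ∑ a ∈ Y, ∑ b ∈ Y, (a ^ p ^ j - b ^ p ^ j) ^ (p - 1) *
      (τ a ^ p ^ j - τ b ^ p ^ j) ^ 2 *
      ((y ^ p ^ j - a ^ p ^ j) * (y ^ p ^ j - b ^ p ^ j)) ^ r /
      (dP Y a * dP Y b) := by
    rw [mul_sum]
    refine sum_congr rfl fun a _ => ?_
    rw [finset_sum_coeff, mul_sum]
    refine sum_congr rfl fun b _ => ?_
    rw [coeff_C_mul, relS_coeff _ _ _ _ (by omega), show i + 1 - (i - 1) = 2 by omega,
      show p - 1 = (p - i) + (i - 1) by omega, pow_add]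
    simp only [hw]
    ring
  rw [e3] at hc
  exact (mul_eq_zero.1 hc).resolve_left hch

theorem relS {p j r : ℕ} [Fact p.Prime] [CharP F p] (hp : 5 ≤ p)
    (hq : Fintype.card F = p ^ (j + 1)) (hj : 1 ≤ j) (hr : r + 3 ≤ p) {Y : Finset F}
    (hY : Y.card = (p - 2) * p ^ j + 3) {τ : F → F} (h : NZ τ Y) (η : F) :
    ∑ a ∈ Y, ∑ b ∈ Y, (a ^ p ^ j - b ^ p ^ j) ^ (p - 1) *
      (τ a ^ p ^ j - τ b ^ p ^ j) ^ 2 * ((η - a ^ p ^ j) * (η - b ^ p ^ j)) ^ r /
      (dP Y a * dP Y b) = 0 := by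
  set w : F → F → F := fun a b => (a ^ p ^ j - b ^ p ^ j) ^ (p - 1) *
      (τ a ^ p ^ j - τ b ^ p ^ j) ^ 2 / (dP Y a * dP Y b) with hw
  set Q : F[X] := ∑ a ∈ Y, ∑ b ∈ Y, C (w a b) *
      ((X - C (a ^ p ^ j)) * (X - C (b ^ p ^ j))) ^ r with hQ
  have hdeg : Q.natDegree ≤ 2 * r := by
    rw [hQ]
    refine natDegree_sum_le_of_forall_le _ _ fun a _ => ?_
    refine natDegree_sum_le_of_forall_le _ _ fun b _ => ?_
    refine (natDegree_C_mul_le _ _).trans (natDegree_pow_le.trans ?_)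
    have h1 : ((X - C (a ^ p ^ j)) * (X - C (b ^ p ^ j)) : F[X]).natDegree ≤ 2 := by
      refine natDegree_mul_le.trans ?_
      rw [natDegree_X_sub_C, natDegree_X_sub_C]
    calc _ ≤ r * 2 := Nat.mul_le_mul_left _ h1
      _ = 2 * r := mul_comm _ _
  have hev : ∀ x : F, Q.eval x = ∑ a ∈ Y, ∑ b ∈ Y, (a ^ p ^ j - b ^ p ^ j) ^ (p - 1) *
      (τ a ^ p ^ j - τ b ^ p ^ j) ^ 2 * ((x - a ^ p ^ j) * (x - b ^ p ^ j)) ^ r /
      (dP Y a * dP Y b) := by
    intro x
    rw [hQ, eval_finset_sum]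
    refine sum_congr rfl fun a _ => ?_
    rw [eval_finset_sum]
    refine sum_congr rfl fun b _ => ?_
    simp only [eval_mul, eval_pow, eval_sub, eval_C, eval_X, hw]
    ring
  have hinj : Function.Injective (fun y : F => y ^ p ^ j) := by
    intro y z hyz
    have h1 : (y ^ p ^ j) ^ p = (z ^ p ^ j) ^ p := by
      rw [show y ^ p ^ j = z ^ p ^ j from hyz]
    have h2 : ∀ x : F, (x ^ p ^ j) ^ p = x := fun x => by
      rw [← pow_mul, mul_comm, pow_mul, relS_pow hq]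
    rwa [h2, h2] at h1
  have hQ0 : Q = 0 := by
    refine eq_zero_of_natDegree_lt_card_of_eval_eq_zero' Q (Yᶜ.image fun y : F => y ^ p ^ j)
      (fun x hx => ?_) ?_
    · obtain ⟨y, hy, rfl⟩ := mem_image.1 hx
      rw [hev]
      exact relS_one hp hq hr hY h (mem_compl.1 hy)
    · rw [card_image_of_injective _ hinj, card_compl, hq, hY, pow_succ]
      have h1 : p ≤ p ^ j := by
        calc p = p ^ 1 := (pow_one p).symm
          _ ≤ p ^ j := Nat.pow_le_pow_right (by omega) hj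
      have h2 : p ^ j * p = (p - 2) * p ^ j + 2 * p ^ j := by
        rw [← add_mul, Nat.sub_add_cancel (by omega), mul_comm]
      omega
  rw [← hev, hQ0, eval_zero]

end Pool.Agent.L5helper34.OP
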