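import Pool.Agent.L5helper34.OP.Chain
set_option autoImplicit false
set_option linter.all false

/-!
# The structure theorem
-/

namespace Pool.Agent.L5helper34.OP

open Finset Polynomial Pool.Agent.L5helper34.OC

variable {F : Type} [Field F] [DecidableEq F]

/-- combinations of the functionals -/
lemma st_window {p m D : ℕ} {K : Finset F} (hK : K.card = (p - 2) * m + D + 3) (f g h : F → F) (x y : F)
    (hh : ∀ P : F[X], P.natDegree ≤ D → L K f P = x * L K g P + y * L K h P) :
    ∃ S : F[X], S.natDegree ≤ (p - 2) * m + 1 ∧ ∀ b ∈ K, S.eval b = f b - x * g b - y * h b := by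
  refine exists_poly K (fun b => f b - x * g b - y * h b) D ((p - 2) * m + 1) (by omega) fun P hP => ?_
  have h1 := hh P hP
  rw [OC.L_apply, OC.L_apply, OC.L_apply, mul_sum, mul_sum, ← sum_add_distrib] at h1
  rw [OC.L_apply, ← sub_eq_zero.2 h1, ← sum_sub_distrib]
  exact sum_congr rfl fun b _ => by ring

/-- a product of linear forms is zero -/
lemma st_prod {V : Type} [AddCommGroup V] [Module F V] (f g : V →ₗ[F] F) (h : ∀ v, f v * g v = 0)
    {v0 : V} (hv : f v0 ≠ 0) (w : V) : g w = 0 := by
  by_contra hw
  have h0 : f w = 0 := (mul_eq_zero.1 (h w)).resolve_right hw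
  have h1 : g v0 = 0 := (mul_eq_zero.1 (h v0)).resolve_left hv
  have h2 := h (v0 + w)
  rw [map_add, map_add, h0, h1, add_zero, zero_add] at h2
  exact (mul_ne_zero hv hw) h2

/-- two forms -/
lemma st_two {V : Type} [AddCommGroup V] [Module F V] (f g φ : V →ₗ[F] F)
    (h : ∀ v, f v = 0 → g v = 0 → φ v = 0) : ∃ a b, ∀ v, φ v = a * f v + b * g v := by
  by_cases hf : ∀ v, g v = 0 → f v = 0
  · obtain ⟨c, hc⟩ := mult_of_ker φ g fun v hv => h v (hf v hv) hv
    exact ⟨0, c, fun v => by rw [hc v, zero_mul, zero_add]⟩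
  · push Not at hf
    obtain ⟨v0, hg0, hf0⟩ := hf
    -- φ - (φ v0 / f v0) f vanishes on ker g
    obtain ⟨c, hc⟩ := mult_of_ker (φ - (φ v0 / f v0) • f) g fun v hv => by
      have h1 : f (v - (f v / f v0) • v0) = 0 := by
        rw [map_sub, map_smul, smul_eq_mul]; field_simp; ring
      have h2 : g (v - (f v / f v0) • v0) = 0 := by
        rw [map_sub, map_smul, smul_eq_mul, hg0, hv]; ring
      have h3 := h _ h1 h2
      rw [map_sub, map_smul, smul_eq_mul] at h3
      rw [LinearMap.sub_apply, LinearMap.smul_apply, smul_eq_mul]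
      linear_combination h3
    refine ⟨φ v0 / f v0, c, fun v => ?_⟩
    have h1 := hc v
    rw [LinearMap.sub_apply, LinearMap.smul_apply, smul_eq_mul] at h1
    linear_combination h1

variable [Fintype F]

lemma st_Z {p m D : ℕ} {K : Finset F} {τ : F → F} (H : Hyp p m D K τ) (P : F[X])
    (hP : P.natDegree ≤ D) (hω : om K m p P = 0)
    (h : ∀ i, i + 4 ≤ p → dl K m τ i P = 0) : ∀ k < p, dl K m τ k P = 0 := by
  have hp := H.hp
  have h3 : dl K m τ (p - 3) P = 0 := by
    have q := H.q2 0 (p - 5) (by omega) (by omega) P hP hω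
    rw [sum_eq_single (p - 3)] at q
    · rw [show 0 + (p - 3) = p - 3 by omega, show p - 5 + (p - 1 - (p - 3)) = p - 3 by omega] at q
      exact mul_self_eq_zero.1 q
    · intro l hl hne
      rw [mem_range] at hl
      by_cases h4 : l + 4 ≤ p
      · rw [h (0 + l) (by omega), zero_mul]
      · rw [h (p - 5 + (p - 1 - l)) (by omega), mul_zero]
    · intro hn; exact absurd (mem_range.2 (by omega)) hn
  have h2 : dl K m τ (p - 2) P = 0 := by
    have q := H.q2 0 (p - 3) (by omega) (by omega) P hP hω
    rw [sum_eq_single (p - 2)] at q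
    · rw [show 0 + (p - 2) = p - 2 by omega, show p - 3 + (p - 1 - (p - 2)) = p - 2 by omega] at q
      exact mul_self_eq_zero.1 q
    · intro l hl hne
      rw [mem_range] at hl
      by_cases h4 : l + 4 ≤ p
      · rw [h (0 + l) (by omega), zero_mul]
      · by_cases h5 : l = p - 3
        · rw [show 0 + l = p - 3 by omega, h3, zero_mul]
        · rw [show p - 3 + (p - 1 - l) = p - 3 by omega, h3, mul_zero]
    · intro hn; exact absurd (mem_range.2 (by omega)) hn
  have h' : ∀ k, k + 2 ≤ p → dl K m τ k P = 0 := by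
    intro k hk
    by_cases h4 : k + 4 ≤ p
    · exact h k h4
    · by_cases h5 : k = p - 3
      · rw [h5, h3]
      · rw [show k = p - 2 by omega, h2]
  have h1 : dl K m τ (p - 1) P = 0 := by
    have q := H.q2 2 (p - 3) (by omega) (by omega) P hP hω
    rw [sum_eq_single (p - 3)] at q
    · rw [show 2 + (p - 3) = p - 1 by omega, show p - 3 + (p - 1 - (p - 3)) = p - 1 by omega] at q
      exact mul_self_eq_zero.1 q
    · intro l hl hne
      rw [mem_range] at hl
      by_cases h4 : l + 4 ≤ p
      · rw [h' (2 + l) (by omega), zero_mul]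
      · rw [h' (p - 3 + (p - 1 - l)) (by omega), mul_zero]
    · intro hn; exact absurd (mem_range.2 (by omega)) hn
  intro k hk
  by_cases h4 : k + 2 ≤ p
  · exact h' k h4
  · rw [show k = p - 1 by omega, h1]

/-- the polynomials `T k` -/
lemma st_T {p m D : ℕ} {K : Finset F} {τ : F → F} (H : Hyp p m D K τ) :
    ∃ T : ℕ → F[X], (∀ k, k + 3 ≤ 2 * p → (T k).natDegree ≤ (p - 1) * m + 1) ∧
      (∀ k, k + 3 ≤ p → (T k).natDegree ≤ (p - 1) * m) ∧
      ∀ k, k + 3 ≤ 2 * p → ∀ b ∈ K, (T k).eval b = (b ^ m) ^ k * τ b ^ m := by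
  have h1 : ∀ k, ∃ G : F[X], k + 3 ≤ 2 * p → G.natDegree ≤ (p - 1) * m + 1 ∧
      ∀ b ∈ K, G.eval b = (b ^ m) ^ k * τ b ^ m := by
    intro k
    by_cases hk : k + 3 ≤ 2 * p
    · obtain ⟨G, hG⟩ := H.lin k hk
      exact ⟨G, fun _ => hG⟩
    · exact ⟨0, fun h => absurd h hk⟩
  choose T hT using h1
  have hcard : (p - 1) * m + 3 ≤ K.card := by
    have h1 := H.card
    have h2 := H.big
    have h3 := H.hp
    have h4 : (p - 1) * m = (p - 2) * m + m := by
      rw [show p - 1 = (p - 2) + 1 by omega, add_mul, one_mul]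
    omega
  refine ⟨T, fun k hk => (hT k hk).1, fun k hk => ?_, fun k hk => (hT k hk).2⟩
  have hk1 : k + 3 ≤ 2 * p := by omega
  have hk2 : p + k + 3 ≤ 2 * p := by omega
  have e : T k * X = T (p + k) := by
    refine poly_eq (K := K) ?_ (by have := (hT _ hk2).1; omega) fun s hs => ?_
    · have := natDegree_mul_le (p := T k) (q := (X : F[X]))
      have := (hT _ hk1).1
      rw [natDegree_X] at *
      omega
    · rw [eval_mul, eval_X, (hT _ hk1).2 s hs, (hT _ hk2).2 s hs, pow_add, ← pow_mul s m p,
        mul_comm m p, H.pow]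
      ring
  by_cases h0 : T k = 0
  · rw [h0, natDegree_zero]; exact Nat.zero_le _
  · have h2 := natDegree_mul_X h0
    rw [e] at h2
    have := (hT _ hk2).1
    omega

/-- all functionals are multiples of `ω` -/
lemma st_W {p m D : ℕ} {K : Finset F} {τ : F → F} (H : Hyp p m D K τ)
    (hw : ∀ k < p, ∃ w : F, ∀ P : F[X], P.natDegree ≤ D → dl K m τ k P = w * om K m p P) :
    ∃ Ω : F[X], Ω.natDegree + 1 ≤ p ∧ ∀ b ∈ K, τ b ^ m = Ω.eval (b ^ m) := by
  obtain ⟨T, hT1, hT2, hT3⟩ := st_T H
  have hp := H.hp
  have hm := H.hm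
  have hm1 : (p - 1) * m = (p - 2) * m + m := by
    rw [show p - 1 = (p - 2) + 1 by omega, add_mul, one_mul]
  have hcard : (p - 1) * m + 3 ≤ K.card := by
    have h1 := H.card
    have h2 := H.big
    omega
  have hw' : ∀ k, ∃ w : F, k < p → ∀ P : F[X], P.natDegree ≤ D → dl K m τ k P = w * om K m p P := by
    intro k
    by_cases hk : k < p
    · obtain ⟨w, h⟩ := hw k hk
      exact ⟨w, fun _ => h⟩
    · exact ⟨0, fun h => absurd h hk⟩
  choose w hw using hw'
  have hS : ∀ k, ∃ S : F[X], k < p → S.natDegree ≤ (p - 2) * m + 1 ∧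
      T k = C (w k) * X ^ ((p - 1) * m) + S := by
    intro k
    by_cases hk : k < p
    · obtain ⟨S, hS1, hS2⟩ := st_window (p := p) (m := m) (D := D) (K := K) H.card
        (fun b => (b ^ m) ^ k * τ b ^ m) (fun b => (b ^ m) ^ (p - 1)) (fun b => 0) (w k) 0
        (fun P hP => by
          have := hw k hk P hP
          rw [dl, om] at this
          rw [this, zero_mul, add_zero])
      refine ⟨S, fun _ => ⟨hS1, ?_⟩⟩
      refine poly_eq (K := K) (by have := hT1 k (by omega); omega) ?_ fun s hs => ?_
      · refine lt_of_le_of_lt (natDegree_add_le _ _) (max_lt ?_ (by omega))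
        refine lt_of_le_of_lt (natDegree_C_mul_le _ _) ?_
        rw [natDegree_X_pow]; omega
      · rw [hT3 k (by omega) s hs, eval_add, eval_mul, eval_C, eval_pow, eval_X, hS2 s hs,
          ← pow_mul, mul_comm m]
        ring
    · exact ⟨0, fun h => absurd h hk⟩
  choose S hS using hS
  have hch := chain (p := p) (m := m) (n := 0) (by omega) (by omega) (by omega) hcard H.pow
    (t := fun b => τ b ^ m) 1 (by rw [natDegree_one]) T (fun k => C (w k)) S
    (fun k hk b hb => hT3 k (by omega) b hb) (hT2 0 (by omega)) (fun k hk => hT1 k (by omega))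
    (fun k hk => by rw [natDegree_C]) (fun k hk => by have := (hS k hk).1; omega)
    (fun k hk => by rw [one_mul]; exact (hS k hk).2)
  refine ⟨∑ k ∈ range p, C (w k) * X ^ (p - 1 - k), ?_, fun b hb => ?_⟩
  · have : (∑ k ∈ range p, C (w k) * X ^ (p - 1 - k) : F[X]).natDegree ≤ p - 1 :=
      natDegree_sum_le_of_forall_le _ _ fun k _ =>
        (natDegree_C_mul_le _ _).trans (by rw [natDegree_X_pow]; omega)
    omega
  · have h1 := congrArg (eval b) hch
    rw [one_mul, hT3 0 (by omega) b hb, pow_zero, one_mul, eval_finset_sum] at h1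
    rw [h1, eval_finset_sum]
    refine sum_congr rfl fun k _ => ?_
    rw [eval_mul, eval_mul, eval_C, eval_C, eval_pow, eval_X, eval_pow, eval_X, ← pow_mul, mul_comm m]

theorem structure_thm {p m D : ℕ} {K : Finset F} {τ : F → F} (H : Hyp p m D K τ) :
    (∃ Ω : F[X], Ω.natDegree + 1 ≤ p ∧ ∀ b ∈ K, τ b ^ m = Ω.eval (b ^ m)) ∨
    (∃ (μ : F) (A Ω : F[X]), A.natDegree + 1 ≤ p ∧ Ω.natDegree ≤ 2 ∧ A.eval (μ ^ m) = 0 ∧
      ∀ b ∈ K, b ≠ μ → τ b ^ m = A.eval (b ^ m) / (b - μ) + Ω.eval (b ^ m)) := by
  have hp := H.hp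
  have hm := H.hm
  have hm1 : (p - 1) * m = (p - 2) * m + m := by
    rw [show p - 1 = (p - 2) + 1 by omega, add_mul, one_mul]
  have hcard : (p - 1) * m + 3 ≤ K.card := by
    have h1 := H.card
    have h2 := H.big
    omega
  set V := degreeLT F (D + 1) with hVdef
  have hV : ∀ v : V, (v : F[X]).natDegree ≤ D := by
    intro v
    by_cases h0 : (v : F[X]) = 0
    · rw [h0, natDegree_zero]; exact Nat.zero_le _
    · have := mem_degreeLT.1 v.2
      rw [degree_eq_natDegree h0] at this
      have : (v : F[X]).natDegree < D + 1 := by exact_mod_cast this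
      omega
  have hV' : ∀ p : F[X], p.natDegree ≤ D → p ∈ V := fun p hp => mem_degreeLT.2
    (lt_of_le_of_lt degree_le_natDegree (by exact_mod_cast (by omega)))
  by_cases hall : ∀ i, i + 4 ≤ p → ∀ P : F[X], P.natDegree ≤ D → dl K m τ i P = 0
  · -- all small functionals vanish
    left
    refine st_W H fun k hk => ?_
    obtain ⟨c, hc⟩ := mult_of_ker ((dl K m τ k).domRestrict V) ((om K m p).domRestrict V)
      fun v hv => by
        rw [LinearMap.domRestrict_apply] at hv ⊢
        exact st_Z H v (hV v) hv (fun i hi => hall i hi v (hV v)) k hk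
    exact ⟨c, fun P hP => by simpa using hc ⟨P, hV' P hP⟩⟩
  · -- the first non-zero functional
    have hex : ∃ i, i + 4 ≤ p ∧ ∃ P : F[X], P.natDegree ≤ D ∧ dl K m τ i P ≠ 0 := by
      push Not at hall
      exact hall
    classical
    set i0 := Nat.find hex with hi0
    obtain ⟨hi4, P0, hP0, hP0n⟩ := Nat.find_spec hex
    rw [← hi0] at hi4 hP0n
    have hmin : ∀ i < i0, ∀ P : F[X], P.natDegree ≤ D → dl K m τ i P = 0 := by
      intro i hi P hP
      by_contra hne
      exact Nat.find_min hex hi ⟨by omega, P, hP, hne⟩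
    obtain ⟨T, hT1, hT2, hT3⟩ := st_T H
    -- the functional of `p + i`, `i < i0`
    have hmin' : ∀ i < i0, ∀ P : F[X], P.natDegree ≤ D → dl K m τ (p + i) P = 0 := by
      intro i hi P hP
      have := st_prod ((dl K m τ i0).domRestrict V) ((dl K m τ (p + i)).domRestrict V)
        (fun v => by
          rw [LinearMap.domRestrict_apply, LinearMap.domRestrict_apply]
          rw [H.q1 i0 i hi4 (by omega) v (hV v), hmin i hi v (hV v), mul_zero])
        (v0 := ⟨P0, hV' P0 hP0⟩) (by rw [LinearMap.domRestrict_apply]; exact hP0n) ⟨P, hV' P hP⟩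
      simpa using this
    -- `δ'` is not a multiple of `δ`
    have hindep : ∀ c : F, ¬ ∀ P : F[X], P.natDegree ≤ D → dl K m τ (p + i0) P = c * dl K m τ i0 P := by
      intro c hc
      obtain ⟨S, hS1, hS2⟩ := st_window (p := p) (m := m) (D := D) (K := K) H.card
        (fun b => (b ^ m) ^ (p + i0) * τ b ^ m) (fun b => (b ^ m) ^ i0 * τ b ^ m) (fun b => 0) c 0
        (fun P hP => by
          have := hc P hP
          rw [dl, dl] at this
          rw [this, zero_mul, add_zero])
      have e : (X - C c) * T i0 = S := by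
        refine poly_eq (K := K) ?_ (by omega) fun s hs => ?_
        · have := natDegree_mul_le (p := (X - C c : F[X])) (q := T i0)
          rw [natDegree_X_sub_C] at this
          have := hT2 i0 (by omega)
          omega
        · rw [eval_mul, hT3 i0 (by omega) s hs, hS2 s hs, eval_sub, eval_X, eval_C, pow_add,
            ← pow_mul s m p, mul_comm m p, H.pow]
          ring
      have hdeg : (T i0).natDegree ≤ (p - 2) * m := by
        by_cases h0 : T i0 = 0
        · rw [h0, natDegree_zero]; exact Nat.zero_le _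
        · have h1 := (monic_X_sub_C c).natDegree_mul' h0
          rw [e, natDegree_X_sub_C] at h1
          omega
      apply hP0n
      rw [dl, OC.L_apply, ← sum_zero K (P0 * T i0) (by
        have := natDegree_mul_le (p := P0) (q := T i0)
        have := H.card
        omega)]
      exact sum_congr rfl fun b hb => by rw [eval_mul, hT3 i0 (by omega) b hb]
    -- multiples
    have hmul : ∀ k, k + 4 ≤ p → ∃ a : F, ∀ P : F[X], P.natDegree ≤ D →
        dl K m τ k P = a * dl K m τ i0 P := by
      intro k hk
      by_contra hcon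
      -- an element of the kernel of `δ` with `δ_k ≠ 0`
      have h1 : ∃ v : V, dl K m τ i0 v = 0 ∧ dl K m τ k v ≠ 0 := by
        by_contra h
        push Not at h
        obtain ⟨c, hc⟩ := mult_of_ker ((dl K m τ k).domRestrict V) ((dl K m τ i0).domRestrict V)
          fun v hv => h v hv
        exact hcon ⟨c, fun P hP => by simpa using hc ⟨P, hV' P hP⟩⟩
      have h2 : ∃ v : V, dl K m τ i0 v = 0 ∧ dl K m τ (p + i0) v ≠ 0 := by
        by_contra h
        push Not at h
        obtain ⟨c, hc⟩ := mult_of_ker ((dl K m τ (p + i0)).domRestrict V)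
          ((dl K m τ i0).domRestrict V) fun v hv => h v hv
        exact hindep c fun P hP => by simpa using hc ⟨P, hV' P hP⟩
      obtain ⟨v, hv1, hv2⟩ := h1
      obtain ⟨u, hu1, hu2⟩ := h2
      have q := fun v : V => H.q1 i0 k hi4 hk v (hV v)
      have qv := q v
      have qu := q u
      rw [hv1, zero_mul] at qv
      rw [hu1, zero_mul] at qu
      have hv3 : dl K m τ (p + i0) v = 0 := (mul_eq_zero.1 qv.symm).resolve_right hv2
      have hu3 : dl K m τ k u = 0 := (mul_eq_zero.1 qu.symm).resolve_left hu2
      have quv := q (u + v)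
      rw [Submodule.coe_add, map_add, map_add, map_add, map_add, hu1, hv1, hv3, hu3, add_zero,
        zero_mul, add_zero, zero_add] at quv
      exact (mul_ne_zero hu2 hv2) quv.symm
    -- the span of `δ, ω`
    have hker : ∀ P : F[X], P.natDegree ≤ D → dl K m τ i0 P = 0 → om K m p P = 0 →
        ∀ k < p, dl K m τ k P = 0 := by
      intro P hP h1 h2
      refine st_Z H P hP h2 fun i hi => ?_
      obtain ⟨a, ha⟩ := hmul i hi
      rw [ha P hP, h1, mul_zero]
    have hew : ∀ k, ∃ e w : F, (k + 4 ≤ p → w = 0) ∧ (k < p → ∀ P : F[X], P.natDegree ≤ D →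
        dl K m τ k P = e * dl K m τ i0 P + w * om K m p P) := by
      intro k
      by_cases hk : k + 4 ≤ p
      · obtain ⟨a, ha⟩ := hmul k hk
        exact ⟨a, 0, fun _ => rfl, fun _ P hP => by rw [ha P hP, zero_mul, add_zero]⟩
      · by_cases hk' : k < p
        · obtain ⟨a, b, hab⟩ := st_two ((dl K m τ i0).domRestrict V) ((om K m p).domRestrict V)
            ((dl K m τ k).domRestrict V) fun v h1 h2 => hker v (hV v) h1 h2 k hk'
          exact ⟨a, b, fun h => absurd h hk, fun _ P hP => by simpa using hab ⟨P, hV' P hP⟩⟩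
        · exact ⟨0, 0, fun _ => rfl, fun h => absurd h hk'⟩
    choose e w hw0 hew using hew
    by_cases hii : ∀ P : F[X], P.natDegree ≤ D → om K m p P = 0 → dl K m τ i0 P = 0
    · -- everything is a multiple of `ω`
      left
      obtain ⟨c, hc⟩ := mult_of_ker ((dl K m τ i0).domRestrict V) ((om K m p).domRestrict V)
        fun v hv => hii v (hV v) hv
      refine st_W H fun k hk => ⟨e k * c + w k, fun P hP => ?_⟩
      have h1 : dl K m τ i0 P = c * om K m p P := by simpa using hc ⟨P, hV' P hP⟩
      rw [hew k hk P hP, h1]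
      ring
    · right
      push Not at hii
      obtain ⟨P2, hP2, hP2ω, hP2δ⟩ := hii
      -- `δ'` vanishes if `δ` and `ω` vanish
      have hi : ∀ P : F[X], P.natDegree ≤ D → dl K m τ i0 P = 0 → om K m p P = 0 →
          dl K m τ (p + i0) P = 0 := by
        intro P1 hP1 h1 h2
        have small : ∀ u, u < i0 + p → dl K m τ u P1 = 0 := by
          intro u hu
          by_cases hup : u < p
          · exact hker P1 hP1 h1 h2 u hup
          · have := hmin' (u - p) (by omega) P1 hP1
            rwa [show p + (u - p) = u by omega] at this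
        have hP12 : (P2 + P1).natDegree ≤ D := (natDegree_add_le _ _).trans (max_le hP2 hP1)
        have q := H.q2 (i0 + 1) i0 (by omega) (by omega) P2 hP2 hP2ω
        have q' := H.q2 (i0 + 1) i0 (by omega) (by omega) (P2 + P1) hP12
          (by rw [map_add, hP2ω, h2, add_zero])
        have hpp : p = (p - 1) + 1 := by omega
        have e1 : ∀ P : F[X], ∑ l ∈ range p, dl K m τ (i0 + 1 + l) P * dl K m τ (i0 + (p - 1 - l)) P =
            ∑ l ∈ range (p - 1), dl K m τ (i0 + 1 + l) P * dl K m τ (i0 + (p - 1 - l)) P +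
              dl K m τ (p + i0) P * dl K m τ i0 P := by
          intro P
          conv_lhs => rw [hpp]
          rw [sum_range_succ]
          congr 1
          rw [show i0 + 1 + (p - 1) = p + i0 by omega, show p - 1 + 1 - 1 - (p - 1) = 0 by omega,
            add_zero]
        rw [e1] at q q'
        have e2 : ∑ l ∈ range (p - 1), dl K m τ (i0 + 1 + l) (P2 + P1) *
            dl K m τ (i0 + (p - 1 - l)) (P2 + P1) =
            ∑ l ∈ range (p - 1), dl K m τ (i0 + 1 + l) P2 * dl K m τ (i0 + (p - 1 - l)) P2 := by
          refine sum_congr rfl fun l hl => ?_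
          rw [mem_range] at hl
          rw [map_add, map_add, small (i0 + 1 + l) (by omega), small (i0 + (p - 1 - l)) (by omega),
            add_zero, add_zero]
        rw [e2, map_add, map_add, h1, add_zero] at q'
        have h5 : dl K m τ (p + i0) P1 * dl K m τ i0 P2 = 0 := by linear_combination q' - q
        exact (mul_eq_zero.1 h5).resolve_right hP2δ
      obtain ⟨μ, v, hμv⟩ := st_two ((dl K m τ i0).domRestrict V) ((om K m p).domRestrict V)
        ((dl K m τ (p + i0)).domRestrict V) fun v h1 h2 => hi v (hV v) h1 h2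
      have hμv' : ∀ P : F[X], P.natDegree ≤ D → dl K m τ (p + i0) P =
          μ * dl K m τ i0 P + v * om K m p P := fun P hP => by simpa using hμv ⟨P, hV' P hP⟩
      obtain ⟨S, hS1, hS2⟩ := st_window (p := p) (m := m) (D := D) (K := K) H.card
        (fun b => (b ^ m) ^ (p + i0) * τ b ^ m) (fun b => (b ^ m) ^ i0 * τ b ^ m)
        (fun b => (b ^ m) ^ (p - 1)) μ v (fun P hP => hμv' P hP)
      have eS : (X - C μ) * T i0 = C v * X ^ ((p - 1) * m) + S := by
        refine poly_eq (K := K) ?_ ?_ fun s hs => ?_
        · have := natDegree_mul_le (p := (X - C μ : F[X])) (q := T i0)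
          rw [natDegree_X_sub_C] at this
          have := hT2 i0 (by omega)
          omega
        · refine lt_of_le_of_lt (natDegree_add_le _ _) (max_lt ?_ (by omega))
          refine lt_of_le_of_lt (natDegree_C_mul_le _ _) ?_
          rw [natDegree_X_pow]; omega
        · rw [eval_mul, hT3 i0 (by omega) s hs, eval_add, hS2 s hs, eval_sub, eval_X, eval_C,
            eval_mul, eval_C, eval_pow, eval_X, pow_add (s ^ m), ← pow_mul s m p, mul_comm m p,
            H.pow, ← pow_mul s m (p - 1), mul_comm m (p - 1)]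
          ring
      have hR : ∀ k, ∃ R : F[X], k < p → R.natDegree ≤ (p - 2) * m + 1 ∧
          T k = C (e k) * T i0 + C (w k) * X ^ ((p - 1) * m) + R := by
        intro k
        by_cases hk : k < p
        · obtain ⟨R, hR1, hR2⟩ := st_window (p := p) (m := m) (D := D) (K := K) H.card
            (fun b => (b ^ m) ^ k * τ b ^ m) (fun b => (b ^ m) ^ i0 * τ b ^ m)
            (fun b => (b ^ m) ^ (p - 1)) (e k) (w k) (fun P hP => hew k hk P hP)
          refine ⟨R, fun _ => ⟨hR1, ?_⟩⟩
          refine poly_eq (K := K) (by have := hT1 k (by omega); omega) ?_ fun s hs => ?_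
          · refine lt_of_le_of_lt (natDegree_add_le _ _) (max_lt ?_ (by omega))
            refine lt_of_le_of_lt (natDegree_add_le _ _) (max_lt ?_ ?_)
            · refine lt_of_le_of_lt (natDegree_C_mul_le _ _) ?_
              have := hT2 i0 (by omega)
              omega
            · refine lt_of_le_of_lt (natDegree_C_mul_le _ _) ?_
              rw [natDegree_X_pow]; omega
          · rw [hT3 k (by omega) s hs, eval_add, eval_add, eval_mul, eval_mul, eval_C, eval_C,
              eval_pow, eval_X, hR2 s hs, hT3 i0 (by omega) s hs, ← pow_mul s m (p - 1),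
              mul_comm m (p - 1)]
            ring
        · exact ⟨0, fun h => absurd h hk⟩
      choose R hR using hR
      have hch := chain (p := p) (m := m) (n := 1) (by omega) (by omega) (by omega) hcard H.pow
        (t := fun b => τ b ^ m) (X - C μ) (by rw [natDegree_X_sub_C]) T
        (fun k => C (e k * v) + C (w k) * (X - C μ)) (fun k => C (e k) * S + (X - C μ) * R k)
        (fun k hk b hb => hT3 k (by omega) b hb) (hT2 0 (by omega)) (fun k hk => hT1 k (by omega))
        (fun k hk => by
          refine (natDegree_add_le _ _).trans (max_le (by rw [natDegree_C]; omega) ?_)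
          exact (natDegree_C_mul_le _ _).trans (by rw [natDegree_X_sub_C]))
        (fun k hk => by
          refine (natDegree_add_le _ _).trans (max_le ?_ ?_)
          · exact (natDegree_C_mul_le _ _).trans (by omega)
          · have := natDegree_mul_le (p := (X - C μ : F[X])) (q := R k)
            rw [natDegree_X_sub_C] at this
            have := (hR k hk).1
            omega)
        (fun k hk => by
          rw [(hR k hk).2, map_mul]
          linear_combination C (e k) * eS)
      set A : F[X] := ∑ k ∈ range p, C (e k * v) * X ^ (p - 1 - k) with hA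
      set Ω : F[X] := ∑ k ∈ range p, C (w k) * X ^ (p - 1 - k) with hΩ
      have hev : ∀ b : F, (b - μ) * (T 0).eval b = A.eval (b ^ m) + (b - μ) * Ω.eval (b ^ m) := by
        intro b
        have h1 := congrArg (eval b) hch
        rw [eval_mul, eval_sub, eval_X, eval_C, eval_finset_sum] at h1
        rw [h1, hA, hΩ, eval_finset_sum, eval_finset_sum, mul_sum, ← sum_add_distrib]
        refine sum_congr rfl fun k _ => ?_
        simp only [eval_mul, eval_add, eval_sub, eval_C, eval_X, eval_pow]
        rw [← pow_mul b m (p - 1 - k), mul_comm m (p - 1 - k)]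
        ring
      refine ⟨μ, A, Ω, ?_, ?_, ?_, ?_⟩
      · have : A.natDegree ≤ p - 1 :=
          natDegree_sum_le_of_forall_le _ _ fun k _ =>
            (natDegree_C_mul_le _ _).trans (by rw [natDegree_X_pow]; omega)
        omega
      · refine natDegree_sum_le_of_forall_le _ _ fun k hk => ?_
        by_cases h4 : k + 4 ≤ p
        · rw [hw0 k h4, C_0, zero_mul, natDegree_zero]; exact Nat.zero_le _
        · exact (natDegree_C_mul_le _ _).trans (by rw [natDegree_X_pow]; omega)
      · have := hev μ
        rw [sub_self, zero_mul, zero_mul, add_zero] at this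
        exact this.symm
      · intro b hb hne
        have h1 := hev b
        rw [hT3 0 (by omega) b hb, pow_zero, one_mul] at h1
        have h2 : b - μ ≠ 0 := sub_ne_zero.2 hne
        field_simp
        linear_combination h1

end Pool.Agent.L5helper34.OP
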